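import Mathlib

/-!
# The Komlós–Sós conjecture for graphs without cycles of length four (helper29)
-/

set_option autoImplicit false
set_option linter.unusedSectionVars false

namespace Pool.Agent.LKS

open Finset
open scoped Classical

section core

variable {V : Type*} [Fintype V] (G : SimpleGraph V)

/-- The number of pairs of adjacent vertices in `X × Y`. -/
noncomputable def ed (X Y : Finset V) : ℕ := ∑ v ∈ X, (Y.filter (G.Adj v)).card

theorem ed_comm (X Y : Finset V) : ed G X Y = ed G Y X := by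
  unfold ed
  have h := Finset.sum_card_bipartiteAbove_eq_sum_card_bipartiteBelow (s := X) (t := Y)
    (fun v w => G.Adj v w)
  unfold Finset.bipartiteAbove Finset.bipartiteBelow at h
  rw [h]
  refine Finset.sum_congr rfl fun w _ => ?_
  congr 1
  ext v
  simp only [Finset.mem_filter]
  rw [G.adj_comm]

theorem ed_erase (X Y : Finset V) {v : V} (hv : v ∈ X) :
    ed G X Y = ed G (X.erase v) Y + (Y.filter (G.Adj v)).card := by
  unfold ed
  rw [Finset.sum_erase_add _ _ hv]

theorem exists_core_aux (L : Finset V) (a b : ℕ) : ∀ n : ℕ, ∀ X Y : Finset V, X ⊆ L →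
    X.card + Y.card = n → a * X.card + b * Y.card < ed G X Y →
    ∃ X' Y' : Finset V, X' ⊆ L ∧ Y'.Nonempty ∧
      (∀ v ∈ X', a < (Y'.filter (G.Adj v)).card) ∧
      ∀ y ∈ Y', b < (X'.filter (G.Adj y)).card := by
  intro n
  induction n with
  | zero =>
    intro X Y _ hn h
    have hX : X = ∅ := Finset.card_eq_zero.mp (by omega)
    subst hX
    simp [ed] at h
  | succ n ih =>
    intro X Y hX hn h
    by_cases h1 : ∀ v ∈ X, a < (Y.filter (G.Adj v)).card
    · by_cases h2 : ∀ y ∈ Y, b < (X.filter (G.Adj y)).card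
      · refine ⟨X, Y, hX, ?_, h1, h2⟩
        rw [Finset.nonempty_iff_ne_empty]
        rintro rfl
        simp [ed] at h
      · push Not at h2
        obtain ⟨y, hy, hyb⟩ := h2
        have h3 : ed G X Y = ed G X (Y.erase y) + (X.filter (G.Adj y)).card := by
          rw [ed_comm, ed_erase G Y X hy, ed_comm]
        have hc := Finset.card_erase_add_one hy
        refine ih X (Y.erase y) hX (by omega) ?_
        have h4 : b * Y.card = b * (Y.erase y).card + b := by
          rw [← hc]
          ring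
        omega
    · push Not at h1
      obtain ⟨v, hv, hva⟩ := h1
      have h3 := ed_erase G X Y hv
      have hc := Finset.card_erase_add_one hv
      refine ih (X.erase v) Y ((Finset.erase_subset _ _).trans hX) (by omega) ?_
      have h4 : a * X.card = a * (X.erase v).card + a := by
        rw [← hc]
        ring
      omega

theorem exists_core (L : Finset V) (a b : ℕ)
    (h : a * L.card + b * Fintype.card V < ∑ v ∈ L, G.degree v) :
    ∃ X Y : Finset V, X ⊆ L ∧ Y.Nonempty ∧
      (∀ v ∈ X, a < (Y.filter (G.Adj v)).card) ∧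
      ∀ y ∈ Y, b < (X.filter (G.Adj y)).card := by
  refine exists_core_aux G L a b _ L univ (Finset.Subset.refl _) rfl ?_
  rw [Finset.card_univ]
  have h1 : ed G L univ = ∑ v ∈ L, G.degree v := by
    unfold ed
    refine Finset.sum_congr rfl fun v _ => ?_
    rw [← SimpleGraph.card_neighborFinset_eq_degree]
    congr 1
    ext w
    simp
  rw [h1]
  exact h

end core

section count

variable {V : Type*} [Fintype V] (G : SimpleGraph V)

/-- The numerical inequality. -/
theorem num_contra (c₁ c ρ P s U q : ℤ) (hc : 1 ≤ c) (hc1 : c ≤ c₁) (hP : P + c ≤ ρ)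
    (hs : s ≤ P + 1) (hU : U ≤ 2 * s) (hq : 2 * ρ + 1 - U ≤ q)
    (h : U + (c₁ - c + 1) * q ≤ s + c₁ + P) : False := by
  have hm : 0 ≤ c₁ - c := by linarith
  have h1 : (c₁ - c + 1) * (2 * ρ + 1 - U) ≤ (c₁ - c + 1) * q :=
    mul_le_mul_of_nonneg_left hq (by linarith)
  have h2 : (c₁ - c) * U ≤ (c₁ - c) * (2 * s) := mul_le_mul_of_nonneg_left hU hm
  have h3 : (c₁ - c) * s ≤ (c₁ - c) * (P + 1) := mul_le_mul_of_nonneg_left hs hm
  have h4 : (c₁ - c + 1) * (P + c) ≤ (c₁ - c + 1) * ρ :=
    mul_le_mul_of_nonneg_left hP (by linarith)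
  have h5 : (c₁ - c) * 1 ≤ (c₁ - c) * c := mul_le_mul_of_nonneg_left hc hm
  nlinarith

/-- The choice of the centre of the next star. -/
theorem exists_centre (hC : ∀ p q : V, p ≠ q →
      (univ.filter fun z => G.Adj p z ∧ G.Adj q z).card ≤ 1)
    (LH RH U₀ : Finset V) (v : V) (hv : v ∈ U₀) (c₁ c ρ P s : ℕ)
    (h1 : ∀ y ∈ U₀, G.Adj v y → ∃ w ∈ U₀, w ≠ v ∧ G.Adj y w)
    (h2 : (U₀.filter (G.Adj v)).card ≤ 2 * s)
    (h3 : ∀ x ∈ RH, c₁ < (LH.filter (G.Adj x)).card)
    (h4 : 2 * ρ < (RH.filter (G.Adj v)).card)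
    (h5 : U₀.card = s + 1 + c₁ + P) (h6 : s ≤ P + 1) (h7 : P + c ≤ ρ) (h8 : 1 ≤ c)
    (h9 : c ≤ c₁) :
    ∃ x ∈ RH, G.Adj v x ∧ x ∉ U₀ ∧ c ≤ ((LH.filter (G.Adj x)) \ U₀).card := by
  by_contra hcon
  push Not at hcon
  set N : Finset V := univ.filter (G.Adj v) with hN
  set β : V → ℕ := fun x => ((U₀.erase v).filter (G.Adj x)).card with hβ
  -- the sum of all `β x`
  have hsum : ∑ x ∈ N, β x ≤ (U₀.erase v).card := by
    have e1 := ed_comm G N (U₀.erase v)
    unfold ed at e1
    calc ∑ x ∈ N, β x = ∑ w ∈ U₀.erase v, (N.filter (G.Adj w)).card := e1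
      _ ≤ ∑ w ∈ U₀.erase v, 1 := by
          refine Finset.sum_le_sum fun w hw => ?_
          refine le_trans (Finset.card_le_card ?_) (hC w v (Finset.ne_of_mem_erase hw))
          intro z hz
          simp only [hN, Finset.mem_filter, Finset.mem_univ, true_and] at hz ⊢
          exact ⟨hz.2, hz.1⟩
      _ = (U₀.erase v).card := by simp
  -- used neighbours
  have hU1 : ∀ x ∈ U₀.filter (G.Adj v), 1 ≤ β x := by
    intro x hx
    rw [Finset.mem_filter] at hx
    obtain ⟨w, hw, hwv, hxw⟩ := h1 x hx.1 hx.2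
    rw [hβ]
    refine Finset.card_pos.mpr ⟨w, ?_⟩
    rw [Finset.mem_filter, Finset.mem_erase]
    exact ⟨⟨hwv, hw⟩, hxw⟩
  -- blocked neighbours
  have hB1 : ∀ x ∈ (RH.filter (G.Adj v)) \ U₀, c₁ - c + 1 ≤ β x := by
    intro x hx
    rw [Finset.mem_sdiff, Finset.mem_filter] at hx
    have e1 := hcon x hx.1.1 hx.1.2 hx.2
    have e2 := h3 x hx.1.1
    have e3 : (LH.filter (G.Adj x)).card ≤ ((LH.filter (G.Adj x)) \ U₀).card +
        (U₀.filter (G.Adj x)).card := by
      refine le_trans (Finset.card_le_card ?_) (Finset.card_union_le _ _)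
      intro z hz
      rw [Finset.mem_union, Finset.mem_sdiff, Finset.mem_filter, Finset.mem_filter]
      rw [Finset.mem_filter] at hz
      by_cases hzU : z ∈ U₀
      · exact Or.inr ⟨hzU, hz.2⟩
      · exact Or.inl ⟨hz, hzU⟩
    have e4 : (U₀.filter (G.Adj x)).card ≤ β x + 1 := by
      have e5 : U₀.filter (G.Adj x) ⊆ insert v ((U₀.erase v).filter (G.Adj x)) := by
        intro z hz
        rw [Finset.mem_insert, Finset.mem_filter, Finset.mem_erase]
        rw [Finset.mem_filter] at hz
        by_cases hzv : z = v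
        · exact Or.inl hzv
        · exact Or.inr ⟨⟨hzv, hz.1⟩, hz.2⟩
      exact le_trans (Finset.card_le_card e5) (Finset.card_insert_le _ _)
    omega
  have hlow : (U₀.filter (G.Adj v)).card + (c₁ - c + 1) * ((RH.filter (G.Adj v)) \ U₀).card ≤
      ∑ x ∈ N, β x := by
    have hd : Disjoint (U₀.filter (G.Adj v)) ((RH.filter (G.Adj v)) \ U₀) := by
      rw [Finset.disjoint_left]
      intro z hz hz'
      rw [Finset.mem_sdiff] at hz'
      exact hz'.2 (Finset.mem_filter.mp hz).1
    have hsub : U₀.filter (G.Adj v) ∪ (RH.filter (G.Adj v)) \ U₀ ⊆ N := by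
      intro z hz
      rw [hN, Finset.mem_filter]
      rcases Finset.mem_union.mp hz with h | h
      · exact ⟨Finset.mem_univ _, (Finset.mem_filter.mp h).2⟩
      · exact ⟨Finset.mem_univ _, (Finset.mem_filter.mp (Finset.mem_sdiff.mp h).1).2⟩
    calc (U₀.filter (G.Adj v)).card + (c₁ - c + 1) * ((RH.filter (G.Adj v)) \ U₀).card
        = ∑ x ∈ U₀.filter (G.Adj v), 1 + ∑ x ∈ (RH.filter (G.Adj v)) \ U₀, (c₁ - c + 1) := by
          simp [mul_comm]
      _ ≤ ∑ x ∈ U₀.filter (G.Adj v), β x + ∑ x ∈ (RH.filter (G.Adj v)) \ U₀, β x :=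
          add_le_add (Finset.sum_le_sum hU1) (Finset.sum_le_sum hB1)
      _ = ∑ x ∈ U₀.filter (G.Adj v) ∪ (RH.filter (G.Adj v)) \ U₀, β x :=
          (Finset.sum_union hd).symm
      _ ≤ ∑ x ∈ N, β x := Finset.sum_le_sum_of_subset hsub
  have hcard : (RH.filter (G.Adj v)).card ≤ ((RH.filter (G.Adj v)) \ U₀).card +
      (U₀.filter (G.Adj v)).card := by
    refine le_trans (Finset.card_le_card ?_) (Finset.card_union_le _ _)
    intro z hz
    rw [Finset.mem_union, Finset.mem_sdiff]
    by_cases hzU : z ∈ U₀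
    · exact Or.inr (Finset.mem_filter.mpr ⟨hzU, (Finset.mem_filter.mp hz).2⟩)
    · exact Or.inl ⟨hz, hzU⟩
  have herase := Finset.card_erase_add_one hv
  have htot := hlow.trans hsum
  have htot' : (U₀.filter (G.Adj v)).card +
      (c₁ - c + 1) * ((RH.filter (G.Adj v)) \ U₀).card ≤ s + c₁ + P := by omega
  refine num_contra (c₁ : ℤ) c ρ P s ((U₀.filter (G.Adj v)).card : ℤ)
    (((RH.filter (G.Adj v)) \ U₀).card : ℤ) (by exact_mod_cast h8) (by exact_mod_cast h9)
    (by exact_mod_cast h7) (by exact_mod_cast h6) (by exact_mod_cast h2) (by omega) ?_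
  have e : ((c₁ - c + 1 : ℕ) : ℤ) = (c₁ : ℤ) - c + 1 := by
    push_cast [Nat.cast_sub h9]
    ring
  rw [← e]
  exact_mod_cast htot'

end count

section star

variable {V W : Type*} [Fintype V] [Fintype W] (G : SimpleGraph V) (T : SimpleGraph W)

/-- Injective maps between finite sets. -/
theorem exists_inj [Nonempty V] (s : Finset W) (t : Finset V) (h : s.card ≤ t.card) :
    ∃ g : W → V, Set.InjOn g s ∧ ∀ a ∈ s, g a ∈ t := by
  obtain ⟨t', ht', hcard⟩ := Finset.exists_subset_card_eq h
  let e := Finset.equivOfCardEq hcard.symm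
  refine ⟨fun w => if hw : w ∈ s then (e ⟨w, hw⟩ : V) else Classical.arbitrary V, ?_, ?_⟩
  · intro a ha b hb hab
    have ha' : a ∈ s := ha
    have hb' : b ∈ s := hb
    simp only [ha', hb', dif_pos] at hab
    have := e.injective (Subtype.ext hab)
    exact congrArg Subtype.val this
  · intro a ha
    simp only [ha, dif_pos]
    exact ht' (e ⟨a, ha⟩).2

/-- `f` is an injective homomorphism on `X`. -/
structure Emb (f : W → V) (X : Finset W) : Prop where
  inj : ∀ a ∈ X, ∀ b ∈ X, f a = f b → a = b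
  hom : ∀ a ∈ X, ∀ b ∈ X, T.Adj a b → G.Adj (f a) (f b)

/-- Adding a star to an embedding. -/
theorem emb_star {f g : W → V} {X C : Finset W} {x : W} {x₀ : V} (hf : Emb G T f X)
    (hx : x ∉ X) (hC : ∀ z ∈ C, z ∉ X) (hxC : x ∉ C)
    (hx₀ : ∀ a ∈ X, f a ≠ x₀) (hg : Set.InjOn g C) (hg₀ : ∀ z ∈ C, g z ≠ x₀)
    (hgf : ∀ z ∈ C, ∀ a ∈ X, f a ≠ g z)
    (h1 : ∀ a ∈ X, T.Adj a x → G.Adj (f a) x₀) (h2 : ∀ z ∈ C, G.Adj x₀ (g z))
    (h3 : ∀ z ∈ C, ∀ a ∈ X, ¬T.Adj a z) (h4 : ∀ z ∈ C, ∀ z' ∈ C, ¬T.Adj z z') :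
    ∃ f' : W → V, (∀ a ∈ X, f' a = f a) ∧ f' x = x₀ ∧ (∀ z ∈ C, f' z = g z) ∧
      Emb G T f' (insert x (X ∪ C)) := by
  refine ⟨fun w => if w = x then x₀ else if w ∈ C then g w else f w, ?_, ?_, ?_, ?_⟩
  · intro a ha
    have e1 : a ≠ x := fun h => hx (h ▸ ha)
    have e2 : a ∉ C := fun h => hC a h ha
    simp only [e1, e2, if_false]
  · simp
  · intro z hz
    have e1 : z ≠ x := fun h => hxC (h ▸ hz)
    simp only [e1, hz, if_false, if_true]
  · have eX : ∀ a ∈ X, (if a = x then x₀ else if a ∈ C then g a else f a) = f a := by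
      intro a ha
      have e1 : a ≠ x := fun h => hx (h ▸ ha)
      have e2 : a ∉ C := fun h => hC a h ha
      simp only [e1, e2, if_false]
    have eC : ∀ z ∈ C, (if z = x then x₀ else if z ∈ C then g z else f z) = g z := by
      intro z hz
      have e1 : z ≠ x := fun h => hxC (h ▸ hz)
      simp only [e1, hz, if_false, if_true]
    have ex : (if x = x then x₀ else if x ∈ C then g x else f x) = x₀ := by simp
    constructor
    · intro a ha b hb hab
      simp only [Finset.mem_insert, Finset.mem_union] at ha hb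
      rcases ha with rfl | ha | ha <;> rcases hb with rfl | hb | hb
      · rfl
      · rw [ex, eX b hb] at hab
        exact absurd hab.symm (hx₀ b hb)
      · rw [ex, eC b hb] at hab
        exact absurd hab.symm (hg₀ b hb)
      · rw [ex, eX a ha] at hab
        exact absurd hab (hx₀ a ha)
      · rw [eX a ha, eX b hb] at hab
        exact hf.inj a ha b hb hab
      · rw [eX a ha, eC b hb] at hab
        exact absurd hab (hgf b hb a ha)
      · rw [ex, eC a ha] at hab
        exact absurd hab (hg₀ a ha)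
      · rw [eC a ha, eX b hb] at hab
        exact absurd hab.symm (hgf a ha b hb)
      · rw [eC a ha, eC b hb] at hab
        exact hg ha hb hab
    · intro a ha b hb hab
      simp only [Finset.mem_insert, Finset.mem_union] at ha hb
      rcases ha with rfl | ha | ha <;> rcases hb with rfl | hb | hb
      · exact absurd hab (T.loopless.irrefl _)
      · rw [ex, eX b hb]
        exact (h1 b hb hab.symm).symm
      · rw [ex, eC b hb]
        exact h2 b hb
      · rw [ex, eX a ha]
        exact h1 a ha hab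
      · rw [eX a ha, eX b hb]
        exact hf.hom a ha b hb hab
      · exact absurd hab (h3 b hb a ha)
      · rw [ex, eC a ha]
        exact (h2 a ha).symm
      · exact absurd hab.symm (h3 a ha b hb)
      · exact absurd hab (h4 a ha b hb)

end star

end Pool.Agent.LKS
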