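import Pool.Agent.LKS.Greedy

/-!
# Counting lemmas for graphs with small codegrees (helper29)
-/

set_option autoImplicit false
set_option linter.unusedSectionVars false

namespace Pool.Agent.LKS

open Finset
open scoped Classical

section

variable {V W : Type*} [Fintype V] {G : SimpleGraph V}

/-- Weighted double counting. -/
theorem sum_cod {τ : ℕ}
    (hC : ∀ p q : V, p ≠ q → (univ.filter fun z => G.Adj p z ∧ G.Adj q z).card ≤ τ)
    {x : V} {Z : Finset V} (hZ : ∀ z ∈ Z, G.Adj x z) {I : Finset W} {pt : W → V}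
    (hpt : ∀ i ∈ I, pt i ≠ x) (wt : W → ℝ) (hwt : ∀ i ∈ I, 0 ≤ wt i) :
    ∑ z ∈ Z, ∑ i ∈ I.filter (fun i => G.Adj (pt i) z), wt i ≤ τ * ∑ i ∈ I, wt i := by
  have h1 : ∑ z ∈ Z, ∑ i ∈ I.filter (fun i => G.Adj (pt i) z), wt i =
      ∑ i ∈ I, (Z.filter (G.Adj (pt i))).card * wt i := by
    simp_rw [Finset.sum_filter]
    rw [Finset.sum_comm]
    refine Finset.sum_congr rfl fun i _ => ?_
    rw [← Finset.sum_filter, Finset.sum_const, nsmul_eq_mul]
  rw [h1, Finset.mul_sum]
  refine Finset.sum_le_sum fun i hi => ?_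
  refine mul_le_mul_of_nonneg_right ?_ (hwt i hi)
  have h2 : (Z.filter (G.Adj (pt i))).card ≤ τ := by
    refine le_trans (Finset.card_le_card ?_) (hC (pt i) x (hpt i hi))
    intro z hz
    rw [Finset.mem_filter] at hz ⊢
    exact ⟨Finset.mem_univ _, hz.2, hZ z hz.1⟩
  exact_mod_cast h2

/-- Unweighted double counting. -/
theorem sum_cod' {τ : ℕ}
    (hC : ∀ p q : V, p ≠ q → (univ.filter fun z => G.Adj p z ∧ G.Adj q z).card ≤ τ)
    {x : V} {Z : Finset V} (hZ : ∀ z ∈ Z, G.Adj x z) {U : Finset V} (hU : x ∉ U) :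
    ∑ z ∈ Z, (U.filter (G.Adj z)).card ≤ τ * U.card := by
  have h := sum_cod (W := V) hC hZ (I := U) (pt := fun w => w)
    (fun i hi e => hU (e ▸ hi)) (fun _ => (1 : ℝ)) (fun _ _ => zero_le_one)
  have h2 : ∀ z, ∑ i ∈ U.filter (fun i => G.Adj i z), (1 : ℝ) = ((U.filter (G.Adj z)).card : ℝ) := by
    intro z
    rw [Finset.sum_const, nsmul_eq_mul, mul_one]
    congr 2
    ext i
    simp only [Finset.mem_filter]
    rw [G.adj_comm]
  simp_rw [h2] at h
  rw [Finset.sum_const, nsmul_eq_mul, mul_one] at h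
  exact_mod_cast h

/-- The number of vertices with many neighbours in `U`. -/
theorem card_many {τ : ℕ}
    (hC : ∀ p q : V, p ≠ q → (univ.filter fun z => G.Adj p z ∧ G.Adj q z).card ≤ τ)
    {x : V} {Z : Finset V} (hZ : ∀ z ∈ Z, G.Adj x z) {U : Finset V} (hU : x ∉ U) (d : ℕ) :
    d * (Z.filter fun z => d ≤ (U.filter (G.Adj z)).card).card ≤ τ * U.card := by
  refine le_trans ?_ (sum_cod' hC hZ hU)
  calc d * (Z.filter fun z => d ≤ (U.filter (G.Adj z)).card).card
      = ∑ z ∈ Z.filter fun z => d ≤ (U.filter (G.Adj z)).card, d := by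
        rw [Finset.sum_const, smul_eq_mul, mul_comm]
    _ ≤ ∑ z ∈ Z.filter fun z => d ≤ (U.filter (G.Adj z)).card, (U.filter (G.Adj z)).card :=
        Finset.sum_le_sum fun z hz => (Finset.mem_filter.mp hz).2
    _ ≤ ∑ z ∈ Z, (U.filter (G.Adj z)).card :=
        Finset.sum_le_sum_of_subset (Finset.filter_subset _ _)

/-- An element of small cost. -/
theorem exists_cheap {Z : Finset V} {cost : V → ℝ} {B : ℝ} {h : ℕ} (hh : 0 < h)
    (hZ : h ≤ Z.card) (hB : 0 ≤ B) (hsum : ∑ z ∈ Z, cost z ≤ B) :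
    ∃ z ∈ Z, cost z ≤ B / h := by
  by_contra hcon
  push Not at hcon
  have hne : Z.Nonempty := Finset.card_pos.mp (lt_of_lt_of_le hh hZ)
  have h1 : ∑ _z ∈ Z, B / h < ∑ z ∈ Z, cost z := Finset.sum_lt_sum_of_nonempty hne hcon
  rw [Finset.sum_const, nsmul_eq_mul] at h1
  have hh' : (0 : ℝ) < h := by exact_mod_cast hh
  have h2 : (h : ℝ) * (B / h) ≤ Z.card * (B / h) := by
    apply mul_le_mul_of_nonneg_right
    · exact_mod_cast hZ
    · positivity
  rw [mul_div_cancel₀ _ hh'.ne'] at h2
  linarith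

/-- The potential of a set `Y` of new vertices. -/
noncomputable def pot (G : SimpleGraph V) (I : Finset W) (pt : W → V) (ex : W → ℕ) (D : ℕ)
    (Y : Finset V) : ℝ :=
  ∑ i ∈ I, (2 : ℝ) ^ (ex i + (Y.filter (G.Adj (pt i))).card) +
    ∑ y ∈ Y, (2 : ℝ) ^ (D + (Y.filter (G.Adj y)).card)

theorem pot_nonneg (I : Finset W) (pt : W → V) (ex : W → ℕ) (D : ℕ) (Y : Finset V) :
    0 ≤ pot G I pt ex D Y := by
  unfold pot
  positivity

theorem filter_insert_card (Y : Finset V) {z : V} (hz : z ∉ Y) (p : V) :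
    ((insert z Y).filter (G.Adj p)).card =
      (Y.filter (G.Adj p)).card + if G.Adj p z then 1 else 0 := by
  rw [Finset.filter_insert]
  split_ifs with h
  · rw [Finset.card_insert_of_notMem]
    intro h'
    exact hz (Finset.mem_filter.mp h').1
  · rfl

/-- The choice of the children. -/
theorem exists_children {τ : ℕ}
    (hC : ∀ p q : V, p ≠ q → (univ.filter fun z => G.Adj p z ∧ G.Adj q z).card ≤ τ)
    {h : ℕ} (hh : 0 < h) {x : V} {Z : Finset V} (hZ : ∀ z ∈ Z, G.Adj x z)
    {I : Finset W} {pt : W → V} (hpt : ∀ i ∈ I, pt i ≠ x) (ex : W → ℕ) (D : ℕ) :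
    ∀ j : ℕ, j + h ≤ Z.card → ∃ Y ⊆ Z, Y.card = j ∧
      pot G I pt ex D Y ≤ (1 + τ / h : ℝ) ^ j *
        (∑ i ∈ I, (2 : ℝ) ^ ex i + j * (2 : ℝ) ^ (D + τ)) := by
  intro j
  induction j with
  | zero =>
    intro _
    refine ⟨∅, Finset.empty_subset _, rfl, ?_⟩
    simp [pot]
  | succ j ih =>
    intro hj
    obtain ⟨Y, hYZ, hYc, hpot⟩ := ih (by omega)
    set cost : V → ℝ := fun z =>
      ∑ i ∈ I.filter (fun i => G.Adj (pt i) z), (2 : ℝ) ^ (ex i + (Y.filter (G.Adj (pt i))).card) +
      ∑ y ∈ Y.filter (fun y => G.Adj y z), (2 : ℝ) ^ (D + (Y.filter (G.Adj y)).card) with hcost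
    have hsum : ∑ z ∈ Z \ Y, cost z ≤ τ * pot G I pt ex D Y := by
      rw [hcost, Finset.sum_add_distrib]
      unfold pot
      rw [mul_add]
      refine add_le_add ?_ ?_
      · exact sum_cod hC (fun z hz => hZ z (Finset.mem_sdiff.mp hz).1) hpt _
          (fun _ _ => by positivity)
      · exact sum_cod (W := V) hC (fun z hz => hZ z (Finset.mem_sdiff.mp hz).1)
          (I := Y) (pt := fun y => y) (fun y hy e => G.loopless.irrefl x (by
            have := hZ y (hYZ hy)
            rwa [e] at this)) _ (fun _ _ => by positivity)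
    have hcard : h ≤ (Z \ Y).card := by
      have := Finset.le_card_sdiff Y Z
      omega
    obtain ⟨z, hz, hzc⟩ := exists_cheap hh hcard
      (mul_nonneg (Nat.cast_nonneg τ) (pot_nonneg I pt ex D Y)) hsum
    rw [Finset.mem_sdiff] at hz
    refine ⟨insert z Y, ?_, ?_, ?_⟩
    · intro y hy
      rcases Finset.mem_insert.mp hy with rfl | hy
      · exact hz.1
      · exact hYZ hy
    · rw [Finset.card_insert_of_notMem hz.2, hYc]
    · have hzx : z ≠ x := fun e => G.loopless.irrefl x (by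
        have := hZ z hz.1
        rwa [e] at this)
      have hzY : (Y.filter (G.Adj z)).card ≤ τ := by
        refine le_trans (Finset.card_le_card ?_) (hC z x hzx)
        intro y hy
        rw [Finset.mem_filter] at hy ⊢
        exact ⟨Finset.mem_univ _, hy.2, hZ y (hYZ hy.1)⟩
      have hpow : ∀ (a : ℕ) (P : Prop) [Decidable P], (2 : ℝ) ^ (a + if P then 1 else 0) =
          2 ^ a + if P then 2 ^ a else 0 := by
        intro a P _
        split_ifs
        · rw [pow_succ]
          ring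
        · rw [add_zero, add_zero]
      have e1 : pot G I pt ex D (insert z Y) = pot G I pt ex D Y + cost z +
          (2 : ℝ) ^ (D + (Y.filter (G.Adj z)).card) := by
        unfold pot
        rw [Finset.sum_insert hz.2]
        simp_rw [filter_insert_card Y hz.2, ← add_assoc, hpow]
        rw [Finset.sum_add_distrib, Finset.sum_add_distrib, ← Finset.sum_filter,
          ← Finset.sum_filter]
        have : ¬G.Adj z z := G.loopless.irrefl z
        rw [if_neg this, hcost]
        ring
      rw [e1]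
      have e2 : (2 : ℝ) ^ (D + (Y.filter (G.Adj z)).card) ≤ 2 ^ (D + τ) :=
        pow_le_pow_right₀ one_le_two (by omega)
      have hq1 : (1 : ℝ) ≤ 1 + τ / h := by
        have : (0 : ℝ) ≤ (τ : ℝ) / h := by positivity
        linarith
      have hE : (0 : ℝ) ≤ 2 ^ (D + τ) := by positivity
      have e3 : pot G I pt ex D Y + cost z ≤ (1 + τ / h) * pot G I pt ex D Y := by
        have : (τ : ℝ) * pot G I pt ex D Y / h = τ / h * pot G I pt ex D Y := by ring
        rw [this] at hzc
        linarith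
      calc pot G I pt ex D Y + cost z + (2 : ℝ) ^ (D + (Y.filter (G.Adj z)).card)
          ≤ (1 + τ / h) * pot G I pt ex D Y + 2 ^ (D + τ) := add_le_add e3 e2
        _ ≤ (1 + τ / h) * ((1 + τ / h : ℝ) ^ j *
              (∑ i ∈ I, (2 : ℝ) ^ ex i + j * (2 : ℝ) ^ (D + τ))) +
              (1 + τ / h : ℝ) ^ (j + 1) * 2 ^ (D + τ) := by
            refine add_le_add (mul_le_mul_of_nonneg_left hpot (by linarith)) ?_
            calc (2 : ℝ) ^ (D + τ) = 1 * 2 ^ (D + τ) := (one_mul _).symm
              _ ≤ _ := mul_le_mul_of_nonneg_right (one_le_pow₀ hq1) hE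
        _ = (1 + τ / h : ℝ) ^ (j + 1) *
              (∑ i ∈ I, (2 : ℝ) ^ ex i + ((j + 1 : ℕ) : ℝ) * (2 : ℝ) ^ (D + τ)) := by
            push_cast
            ring

end

section coretwo

variable {V : Type*} [Fintype V] (G : SimpleGraph V)

theorem ed_insert (X Y : Finset V) {v : V} (hv : v ∉ X) :
    ed G (insert v X) Y = ed G X Y + (Y.filter (G.Adj v)).card := by
  unfold ed
  rw [Finset.sum_insert hv, add_comm]

theorem ed_union_left (X X' Y : Finset V) (h : Disjoint X X') :
    ed G (X ∪ X') Y = ed G X Y + ed G X' Y := by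
  unfold ed
  rw [Finset.sum_union h]

theorem ed_union_right (X Y Y' : Finset V) (h : Disjoint Y Y') :
    ed G X (Y ∪ Y') = ed G X Y + ed G X Y' := by
  rw [ed_comm, ed_union_left G Y Y' X h, ed_comm G Y, ed_comm G Y']

theorem ed_univ (X : Finset V) : ed G X univ = ∑ v ∈ X, G.degree v := by
  unfold ed
  refine Finset.sum_congr rfl fun v _ => ?_
  rw [← SimpleGraph.card_neighborFinset_eq_degree]
  congr 1
  ext w
  simp

/-- The core with large degrees on both sides, as a maximum of a function. -/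
theorem exists_max_core (L : Finset V) (M : ℕ) :
    ∃ X Y : Finset V, X ⊆ L ∧
      (∀ v ∈ X, M < (Y.filter (G.Adj v)).card) ∧
      (∀ v ∈ L, v ∉ X → (Y.filter (G.Adj v)).card ≤ M) ∧
      (∀ y ∈ Y, M < (X.filter (G.Adj y)).card) ∧
      (∀ y, y ∉ Y → (X.filter (G.Adj y)).card ≤ M) ∧
      ed G L univ ≤ ed G X Y + M * (L \ X).card + M * (Yᶜ).card := by
  set N : ℤ := L.card + Fintype.card V + 1 with hN
  let ψ : Finset V × Finset V → ℤ := fun p =>
    (N + 1) * ((ed G p.1 p.2 : ℤ) - M * p.1.card - M * p.2.card) - (p.1.card + p.2.card)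
  obtain ⟨⟨X, Y⟩, hXY, hmax⟩ := Finset.exists_max_image (L.powerset ×ˢ (univ : Finset (Finset V)))
    ψ ⟨(∅, ∅), by simp⟩
  rw [Finset.mem_product, Finset.mem_powerset] at hXY
  have hXL : X ⊆ L := hXY.1
  have hmax' : ∀ X' Y' : Finset V, X' ⊆ L → ψ (X', Y') ≤ ψ (X, Y) := by
    intro X' Y' h
    exact hmax (X', Y') (by
      rw [Finset.mem_product, Finset.mem_powerset]
      exact ⟨h, Finset.mem_univ _⟩)
  have hNpos : 0 < N := by positivity
  have hXc : X.card ≤ L.card := Finset.card_le_card hXL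
  have hYc : Y.card ≤ Fintype.card V := Finset.card_le_univ Y
  refine ⟨X, Y, hXL, ?_, ?_, ?_, ?_, ?_⟩
  · intro v hv
    by_contra hcon
    push Not at hcon
    have h1 := hmax' (X.erase v) Y ((Finset.erase_subset _ _).trans hXL)
    have h2 := ed_erase G X Y hv
    have h3 := Finset.card_erase_add_one hv
    simp only [ψ] at h1
    have h4 : (ed G X Y : ℤ) = ed G (X.erase v) Y + (Y.filter (G.Adj v)).card := by
      exact_mod_cast h2
    have h5 : (X.card : ℤ) = (X.erase v).card + 1 := by exact_mod_cast h3.symm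
    have h6 : ((Y.filter (G.Adj v)).card : ℤ) ≤ M := by exact_mod_cast hcon
    rw [h4, h5] at h1
    nlinarith
  · intro v hv hvX
    by_contra hcon
    push Not at hcon
    have h1 := hmax' (insert v X) Y (by
      intro z hz
      rcases Finset.mem_insert.mp hz with rfl | hz
      · exact hv
      · exact hXL hz)
    have h2 := ed_insert G X Y hvX
    have h3 := Finset.card_insert_of_notMem hvX
    simp only [ψ] at h1
    have h6 : (M : ℤ) + 1 ≤ ((Y.filter (G.Adj v)).card : ℤ) := by exact_mod_cast hcon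
    rw [h2, h3] at h1
    push_cast at h1
    nlinarith
  · intro y hy
    by_contra hcon
    push Not at hcon
    have h1 := hmax' X (Y.erase y) hXL
    have h2 := ed_erase G Y X hy
    rw [ed_comm, ed_comm G (Y.erase y)] at h2
    have h3 := Finset.card_erase_add_one hy
    simp only [ψ] at h1
    have h4 : (ed G X Y : ℤ) = ed G X (Y.erase y) + (X.filter (G.Adj y)).card := by
      exact_mod_cast h2
    have h5 : (Y.card : ℤ) = (Y.erase y).card + 1 := by exact_mod_cast h3.symm
    have h6 : ((X.filter (G.Adj y)).card : ℤ) ≤ M := by exact_mod_cast hcon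
    rw [h4, h5] at h1
    nlinarith
  · intro y hy
    by_contra hcon
    push Not at hcon
    have h1 := hmax' X (insert y Y) hXL
    have h2 := ed_insert G Y X hy
    rw [ed_comm, ed_comm G Y] at h2
    have h3 := Finset.card_insert_of_notMem hy
    simp only [ψ] at h1
    have h6 : (M : ℤ) + 1 ≤ ((X.filter (G.Adj y)).card : ℤ) := by exact_mod_cast hcon
    rw [h2, h3] at h1
    push_cast at h1
    nlinarith
  · have h1 := hmax' L univ (Finset.Subset.refl _)
    simp only [ψ] at h1
    rw [Finset.card_univ] at h1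
    have h2 : ((L \ X).card : ℤ) = L.card - X.card := by
      have := Finset.card_sdiff_add_card_eq_card hXL
      omega
    have h3 : ((Yᶜ).card : ℤ) = Fintype.card V - Y.card := by
      rw [Finset.card_compl]
      push_cast [Nat.cast_sub hYc]
      ring
    have h4 : ((ed G L univ : ℕ) : ℤ) ≤
        ((ed G X Y + M * (L \ X).card + M * (Yᶜ).card : ℕ) : ℤ) := by
      push_cast
      rw [h2, h3]
      by_contra hcon
      push Not at hcon
      have h5 : (ed G X Y : ℤ) - M * X.card - M * Y.card + 1 ≤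
          (ed G L univ : ℤ) - M * L.card - M * Fintype.card V := by linarith
      have h6 : (X.card : ℤ) ≤ L.card := by exact_mod_cast hXc
      have h7 : (Y.card : ℤ) ≤ Fintype.card V := by exact_mod_cast hYc
      have h8 : (0 : ℤ) ≤ X.card := by positivity
      have h9 : (0 : ℤ) ≤ Y.card := by positivity
      nlinarith
    exact_mod_cast h4

/-- The numerical inequality for the second core. -/
theorem num_two (k α c M ρ n x l z y : ℤ) (hα : α = 1 + c + ρ) (hρ : 0 ≤ ρ) (hM : 1 ≤ M)
    (hc : 3 * M ≤ c) (hk : 2 * α ≤ k + 1) (hx : 0 ≤ x) (hl : 0 ≤ l) (hz : 0 ≤ z)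
    (hn : n = y + z) (h1 : α * n ≤ (k + 1) * (x + l)) (h2 : k * x ≤ c * y + M * z)
    (h3 : k * l ≤ M * l + M * z) (h4 : 1 ≤ x + l) : False := by
  have hα0 : 0 < α := by linarith
  have e1 : α * (k * x) ≤ α * (c * y + M * z) := mul_le_mul_of_nonneg_left h2 hα0.le
  have e2 : c * (α * n) ≤ c * ((k + 1) * (x + l)) := mul_le_mul_of_nonneg_left h1 (by linarith)
  -- (α k - c (k+1)) x ≤ c (k+1) l - α (c - M) z
  have e3 : (α * k - c * (k + 1)) * x ≤ c * (k + 1) * l - α * (c - M) * z := by
    rw [hn] at e2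
    nlinarith
  have hkM : 0 < k - M := by linarith
  have e4 : (k - M) * l ≤ M * z := by linarith
  have hc0 : 0 ≤ c := by linarith
  have hk0 : 0 ≤ k := by linarith
  have e5 : c * (k + 1) * ((k - M) * l) ≤ c * (k + 1) * (M * z) :=
    mul_le_mul_of_nonneg_left e4 (mul_nonneg hc0 (by linarith))
  have e6 : (k - M) * ((α * k - c * (k + 1)) * x) ≤
      (k - M) * (c * (k + 1) * l - α * (c - M) * z) := mul_le_mul_of_nonneg_left e3 hkM.le
  -- the first bracket is positive
  have b1 : 1 ≤ α * k - c * (k + 1) := by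
    have : 0 ≤ ρ * k := mul_nonneg hρ hk0
    rw [hα]
    nlinarith
  -- the second bracket is positive
  have b2 : 1 ≤ α * (c - M) * (k - M) - c * (k + 1) * M := by
    have f1 : 2 * c ≤ 3 * (c - M) := by linarith
    have f2 : 5 * k + 1 ≤ 6 * (k - M) := by linarith
    have f3 : (2 * c) * (5 * k + 1) ≤ (3 * (c - M)) * (6 * (k - M)) :=
      mul_le_mul f1 f2 (by linarith) (by linarith)
    have f4 : (3 * M + 1) * ((2 * c) * (5 * k + 1)) ≤ α * ((3 * (c - M)) * (6 * (k - M))) :=
      mul_le_mul (by linarith) f3 (mul_nonneg (by linarith) (by linarith)) hα0.le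
    have f5 : 0 ≤ M * c * (k - 1) := mul_nonneg (mul_nonneg (by linarith) hc0) (by linarith)
    have f6 : 0 ≤ c * k := mul_nonneg hc0 hk0
    nlinarith
  have e7 : (k - M) * (α * k - c * (k + 1)) * x +
      (α * (c - M) * (k - M) - c * (k + 1) * M) * z ≤ 0 := by nlinarith
  have g1 : (k - M) * 1 ≤ (k - M) * (α * k - c * (k + 1)) :=
    mul_le_mul_of_nonneg_left b1 hkM.le
  have g2 : 1 ≤ (k - M) * (α * k - c * (k + 1)) := by linarith
  have g3 : 1 * x ≤ (k - M) * (α * k - c * (k + 1)) * x := mul_le_mul_of_nonneg_right g2 hx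
  have g4 : 1 * z ≤ (α * (c - M) * (k - M) - c * (k + 1) * M) * z :=
    mul_le_mul_of_nonneg_right b2 hz
  have hx0 : x = 0 := by linarith
  have hz0 : z = 0 := by linarith
  have hl1 : 1 ≤ l := by linarith
  rw [hz0, mul_zero] at e4
  have : (k - M) * 1 ≤ (k - M) * l := mul_le_mul_of_nonneg_left hl1 hkM.le
  linarith

/-- The core with large degrees on both sides and a vertex of large degree. -/
theorem exists_core_two (L : Finset V) (k α c M ρ : ℕ) (hL1 : 1 ≤ L.card)
    (hL : ∀ v ∈ L, k ≤ G.degree v) (hα : α = 1 + c + ρ) (hM : 1 ≤ M) (hc : 3 * M ≤ c)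
    (hk : 2 * α ≤ k + 1) (hn : α * Fintype.card V ≤ (k + 1) * L.card) :
    ∃ X Y : Finset V, X ⊆ L ∧ (∀ v ∈ X, M < (Y.filter (G.Adj v)).card) ∧
      (∀ y ∈ Y, M < (X.filter (G.Adj y)).card) ∧
      ∃ y ∈ Y, c < (X.filter (G.Adj y)).card := by
  obtain ⟨X, Y, hXL, h1, h2, h3, h4, h5⟩ := exists_max_core G L M
  refine ⟨X, Y, hXL, h1, h3, ?_⟩
  by_contra hcon
  push Not at hcon
  have hd1 : Disjoint Y Yᶜ := disjoint_compl_right
  have hu1 : Y ∪ Yᶜ = univ := Finset.union_compl Y
  have hd2 : Disjoint X (L \ X) := Finset.disjoint_sdiff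
  have hu2 : X ∪ (L \ X) = L := Finset.union_sdiff_of_subset hXL
  -- edges from X to the complement of Y
  have a1 : ed G X Yᶜ ≤ M * (Yᶜ).card := by
    rw [ed_comm]
    unfold ed
    calc ∑ v ∈ Yᶜ, (X.filter (G.Adj v)).card ≤ ∑ _v ∈ Yᶜ, M :=
          Finset.sum_le_sum fun v hv => h4 v (Finset.mem_compl.mp hv)
      _ = M * (Yᶜ).card := by rw [Finset.sum_const, smul_eq_mul, mul_comm]
  have a2 : ed G X Y ≤ c * Y.card := by
    rw [ed_comm]
    unfold ed
    calc ∑ v ∈ Y, (X.filter (G.Adj v)).card ≤ ∑ _v ∈ Y, c :=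
          Finset.sum_le_sum fun v hv => hcon v hv
      _ = c * Y.card := by rw [Finset.sum_const, smul_eq_mul, mul_comm]
  have a3 : k * X.card ≤ ed G X univ := by
    rw [ed_univ]
    calc k * X.card = ∑ _v ∈ X, k := by rw [Finset.sum_const, smul_eq_mul, mul_comm]
      _ ≤ ∑ v ∈ X, G.degree v := Finset.sum_le_sum fun v hv => hL v (hXL hv)
  have a4 : k * (L \ X).card ≤ ed G (L \ X) univ := by
    rw [ed_univ]
    calc k * (L \ X).card = ∑ _v ∈ L \ X, k := by
          rw [Finset.sum_const, smul_eq_mul, mul_comm]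
      _ ≤ ∑ v ∈ L \ X, G.degree v :=
          Finset.sum_le_sum fun v hv => hL v (Finset.mem_sdiff.mp hv).1
  have a5 : ed G X univ = ed G X Y + ed G X Yᶜ := by
    rw [← hu1, ed_union_right G X Y Yᶜ hd1]
  have a6 : ed G L univ = ed G X univ + ed G (L \ X) univ := by
    conv_lhs => rw [← hu2]
    rw [ed_union_left G X (L \ X) univ hd2]
  have c1 : Y.card + (Yᶜ).card = Fintype.card V := Finset.card_add_card_compl Y
  have c2 : X.card + (L \ X).card = L.card := by
    have := Finset.card_sdiff_add_card_eq_card hXL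
    omega
  refine num_two (k : ℤ) (α : ℤ) (c : ℤ) (M : ℤ) (ρ : ℤ) (Fintype.card V : ℤ) (X.card : ℤ)
    ((L \ X).card : ℤ) ((Yᶜ).card : ℤ) (Y.card : ℤ) (by exact_mod_cast hα) (by positivity)
    (by exact_mod_cast hM) (by exact_mod_cast hc) (by exact_mod_cast hk) (by positivity)
    (by positivity) (by positivity) (by exact_mod_cast c1.symm) ?_ ?_ ?_ ?_
  · have : (L.card : ℤ) = X.card + (L \ X).card := by exact_mod_cast c2.symm
    rw [← this]
    exact_mod_cast hn
  · have : k * X.card ≤ c * Y.card + M * (Yᶜ).card := by omega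
    exact_mod_cast this
  · have : k * (L \ X).card ≤ M * (L \ X).card + M * (Yᶜ).card := by omega
    exact_mod_cast this
  · have : 1 ≤ X.card + (L \ X).card := by omega
    exact_mod_cast this

end coretwo

end Pool.Agent.LKS
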