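import Pool.Agent.LKS.Potential

/-!
# The embedding theorem for graphs with small codegrees (helper29)
-/

set_option autoImplicit false
set_option linter.unusedSectionVars false

namespace Pool.Agent.LKS

open Finset
open scoped Classical

theorem exp_two_le : Real.exp 2 ≤ 8 := by
  have h1 := Real.exp_one_lt_d9
  have h2 : Real.exp 2 = Real.exp 1 * Real.exp 1 := by
    rw [← Real.exp_add]
    norm_num
  have h3 := Real.exp_pos 1
  rw [h2]
  nlinarith

theorem num_pow (τ h N : ℕ) (hh : 0 < h) (hN : N ≤ 306 * h) :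
    (1 + τ / h : ℝ) ^ N ≤ 2 ^ (459 * τ) := by
  have hh' : (0 : ℝ) < h := by exact_mod_cast hh
  have h1 : (1 + τ / h : ℝ) ≤ Real.exp (τ / h) := by
    have := Real.add_one_le_exp (τ / h : ℝ)
    linarith
  have h2 : (1 + τ / h : ℝ) ^ N ≤ Real.exp (τ / h) ^ N :=
    pow_le_pow_left₀ (by positivity) h1 N
  rw [← Real.exp_nat_mul] at h2
  have h3 : (N : ℝ) * (τ / h) ≤ ((153 * τ : ℕ) : ℝ) * 2 := by
    have h4 : (N : ℝ) ≤ 306 * h := by exact_mod_cast hN
    calc (N : ℝ) * (τ / h) ≤ (306 * h) * (τ / h) :=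
          mul_le_mul_of_nonneg_right h4 (by positivity)
      _ = ((153 * τ : ℕ) : ℝ) * 2 := by
          push_cast
          field_simp
          ring
  refine h2.trans ((Real.exp_le_exp.mpr h3).trans ?_)
  rw [Real.exp_nat_mul]
  calc Real.exp 2 ^ (153 * τ) ≤ 8 ^ (153 * τ) :=
        pow_le_pow_left₀ (Real.exp_pos 2).le exp_two_le _
    _ = 2 ^ (459 * τ) := by
        rw [show (8 : ℝ) = 2 ^ 3 by norm_num, ← pow_mul]
        congr 1
        ring

theorem num_two_pow (m : ℕ) (hm : 15 ≤ m) : 1000 * (m + 1) ≤ 2 ^ m := by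
  induction m, hm using Nat.le_induction with
  | base => norm_num
  | succ m hm ih =>
    rw [pow_succ]
    omega

theorem num_p3 (τ α : ℕ) (hα : 15000 ≤ α) :
    (1 + τ / (α / 150 : ℕ) : ℝ) ^ (2 * α) * ((2 * α : ℕ) * (2 : ℝ) ^ (306 * τ + τ)) <
      2 ^ (766 * τ + α / 1000 + 1) := by
  have h1 := num_pow τ (α / 150) (2 * α) (by omega) (by omega)
  have h2 := num_two_pow (α / 1000) (by omega)
  have h3 : 2 * α < 2 ^ (α / 1000 + 1) := by
    rw [pow_succ]
    omega
  have h4 : ((2 * α : ℕ) : ℝ) < 2 ^ (α / 1000 + 1) := by exact_mod_cast h3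
  calc (1 + τ / (α / 150 : ℕ) : ℝ) ^ (2 * α) * ((2 * α : ℕ) * (2 : ℝ) ^ (306 * τ + τ))
      ≤ 2 ^ (459 * τ) * ((2 * α : ℕ) * (2 : ℝ) ^ (306 * τ + τ)) :=
        mul_le_mul_of_nonneg_right h1 (by positivity)
    _ < 2 ^ (459 * τ) * (2 ^ (α / 1000 + 1) * (2 : ℝ) ^ (306 * τ + τ)) :=
        mul_lt_mul_of_pos_left (mul_lt_mul_of_pos_right h4 (by positivity)) (by positivity)
    _ = 2 ^ (766 * τ + α / 1000 + 1) := by
        rw [← pow_add, ← pow_add]
        congr 1
        ring

/-- The numerical inequality for the core of the first regime. -/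
theorem num_core_h (n l k α c₁ ρ h : ℤ) (hα : α = 1 + c₁ + ρ) (hc : 0 ≤ c₁) (hh : 0 ≤ h)
    (hρ0 : 0 ≤ ρ) (hρ : 4 * h ≤ ρ + 1) (hl : 1 ≤ l) (h1 : α * n ≤ (k + 1) * l) (h2 : 2 * α ≤ k + 1) :
    (2 * ρ - 8 * h) * l + (c₁ + 4 * h) * n < k * l := by
  have hα0 : 0 < α := by linarith
  have e1 : (c₁ + 4 * h) * (α * n) ≤ (c₁ + 4 * h) * ((k + 1) * l) :=
    mul_le_mul_of_nonneg_left h1 (by linarith)
  have e2 : (ρ + 1 - 4 * h) * (2 * α) ≤ (ρ + 1 - 4 * h) * (k + 1) :=
    mul_le_mul_of_nonneg_left h2 (by linarith)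
  have e3 : α ≤ α * k - (c₁ + 4 * h) * (k + 1) - (2 * ρ - 8 * h) * α := by
    have e5 : α * k - (c₁ + 4 * h) * (k + 1) - (2 * ρ - 8 * h) * α =
        (ρ + 1 - 4 * h) * (k + 1) - α * (1 + 2 * ρ - 8 * h) := by
      rw [hα]
      ring
    rw [e5]
    nlinarith
  have e4 : α * l ≤ (α * k - (c₁ + 4 * h) * (k + 1) - (2 * ρ - 8 * h) * α) * l :=
    mul_le_mul_of_nonneg_right e3 (by linarith)
  have e5 : 0 < α * l := by positivity
  have e6 : α * ((2 * ρ - 8 * h) * l + (c₁ + 4 * h) * n) < α * (k * l) := by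
    nlinarith
  exact lt_of_mul_lt_mul_left e6 hα0.le

section

variable {V W : Type*} [Fintype V] [Fintype W] {G : SimpleGraph V} {T : SimpleGraph W}

/-- The embedding theorem. -/
theorem main_codeg [Nonempty V] (hT : T.IsTree) {k τ : ℕ} (hW : Fintype.card W = k + 1)
    (hC : ∀ p q : V, p ≠ q → (univ.filter fun z => G.Adj p z ∧ G.Adj q z).card ≤ τ)
    {A : Finset W} (hA : ∀ a b, T.Adj a b → (a ∈ A ↔ b ∉ A)) (hA2 : 2 * A.card ≤ k + 1)
    (hAL : A.card * Fintype.card V ≤
      (k + 1) * (univ.filter fun v : V => k ≤ G.degree v).card)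
    (hτ : τ ≤ 1 ∨ 15000 * τ ≤ A.card ∨
      (2 * A.card - 2) * (univ.filter fun v : V => k ≤ G.degree v).card +
        (2 * A.card - 2) * Fintype.card V <
          k * (univ.filter fun v : V => k ≤ G.degree v).card) :
    ∃ f : W → V, Function.Injective f ∧ (∀ a b, T.Adj a b → G.Adj (f a) (f b)) ∧
      ∀ a ∈ A, k ≤ G.degree (f a) := by
  have hV : 1 ≤ Fintype.card V := Fintype.card_pos
  rcases Nat.eq_zero_or_pos k with rfl | hk
  · -- one vertex
    have h1 : Subsingleton W := Fintype.card_le_one_iff_subsingleton.mp (by omega)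
    refine ⟨fun _ => Classical.arbitrary V, Function.injective_of_subsingleton _, ?_, ?_⟩
    · intro a b hab
      exact absurd (Subsingleton.elim a b) hab.ne
    · intro a _
      exact Nat.zero_le _
  by_cases hτ1 : τ ≤ 1
  · exact main hT hW (fun p q hpq => (hC p q hpq).trans hτ1) hA hA2 hAL
  set L : Finset V := univ.filter fun v : V => k ≤ G.degree v with hL
  set B₂ : Finset W := univ.filter fun x => x ∉ A ∧ 2 ≤ T.degree x with hB₂
  have hB : ∀ x, x ∈ B₂ ↔ x ∉ A ∧ 2 ≤ T.degree x := by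
    intro x
    rw [hB₂, Finset.mem_filter]
    simp
  have hcardA := card_class hT hW hk hA hB
  have hL1 : 1 ≤ L.card := by
    by_contra h
    have h0 : L.card = 0 := by omega
    rw [h0, mul_zero] at hAL
    have h2 : 1 * 1 ≤ A.card * Fintype.card V := Nat.mul_le_mul (by omega) hV
    omega
  have hLmem : ∀ v ∈ L, k ≤ G.degree v := fun v hv => (Finset.mem_filter.mp hv).2
  have hLsum : k * L.card ≤ ∑ v ∈ L, G.degree v := by
    rw [mul_comm, ← smul_eq_mul, ← Finset.sum_const]
    exact Finset.sum_le_sum hLmem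
  rcases Finset.eq_empty_or_nonempty B₂ with h0 | hne
  · obtain ⟨v, hv⟩ := Finset.card_pos.mp (by omega : 0 < L.card)
    exact star_case hT hW hk hA hB h0 (hLmem v hv)
  obtain ⟨r, hr, hmax⟩ := Finset.exists_max_image B₂ (fun x => T.degree x) hne
  set ρ : ℕ := ∑ x ∈ B₂.erase r, (T.degree x - 1) with hρ
  have hsum : ∑ x ∈ B₂, (T.degree x - 1) = (T.degree r - 1) + ρ :=
    (Finset.add_sum_erase _ _ hr).symm
  have hr2 : 2 ≤ T.degree r := ((hB r).mp hr).2
  have hB₂c : B₂.card ≤ ρ + 1 := by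
    have h1 : (B₂.erase r).card ≤ ρ := by
      rw [hρ, Finset.card_eq_sum_ones]
      refine Finset.sum_le_sum fun x hx => ?_
      have := ((hB x).mp (Finset.mem_of_mem_erase hx)).2
      omega
    have h2 := Finset.card_erase_add_one hr
    omega
  rw [hsum] at hcardA
  rcases hτ with hτ | hτ | h6
  · exact absurd hτ hτ1
  · by_cases hreg : 3 * (2 * ρ + τ + 1) ≤ T.degree r - 1
    · -- a dominating star
      obtain ⟨LH, RH, hLH, h4, h3, x₀, hx₀, hx₀c⟩ := exists_core_two G L k A.card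
        (T.degree r - 1) (2 * ρ + τ + 1) ρ hL1 hLmem (by omega) (by omega) hreg hA2 hAL
      have hrule := rule_star (LH := LH) (RH := RH) (r := r) (M := 2 * ρ + τ + 1) hA hB hC
        (by omega) h3 h4
      obtain ⟨f, hf⟩ := gloop hT hA hB hr hrule (x₀ := x₀) (by omega)
        (fun _ _ _ _ => trivial)
      exact finish hT hW hk hA hB (fun v hv => hLmem v (hLH hv)) hf
    · -- the main regime
      push Not at hreg
      set α := A.card with hα
      have hcore : (2 * ρ - 8 * (α / 150)) * L.card +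
          (T.degree r - 1 + 4 * (α / 150)) * Fintype.card V < ∑ v ∈ L, G.degree v := by
        have h1 := num_core_h (Fintype.card V : ℤ) (L.card : ℤ) (k : ℤ) (α : ℤ)
          ((T.degree r - 1 : ℕ) : ℤ) (ρ : ℤ) ((α / 150 : ℕ) : ℤ)
          (by rw [hcardA]; push_cast; ring) (by positivity) (by positivity) (by positivity)
          (by
            have : 4 * (α / 150) ≤ ρ + 1 := by omega
            exact_mod_cast this) (by exact_mod_cast hL1) (by exact_mod_cast hAL)
          (by exact_mod_cast hA2)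
        have h2 : ((2 * ρ - 8 * (α / 150) : ℕ) : ℤ) = 2 * (ρ : ℤ) - 8 * ((α / 150 : ℕ) : ℤ) := by
          have : 8 * (α / 150) ≤ 2 * ρ := by omega
          push_cast [Nat.cast_sub this]
          ring
        rw [← h2] at h1
        have h3 : (2 * ρ - 8 * (α / 150)) * L.card +
          (T.degree r - 1 + 4 * (α / 150)) * Fintype.card V < k * L.card := by
          exact_mod_cast h1
        exact lt_of_lt_of_le h3 hLsum
      obtain ⟨LH, RH, hLH, hRH, h4, h3⟩ := exists_core G L _ _ hcore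
      have hrule := rule_pot (LH := LH) (RH := RH) (r := r) (h := α / 150) (D := 306 * τ)
        (Q := 766 * τ + α / 1000) (N := 2 * α) (Bl := 153 * τ) (a' := 2 * ρ - 8 * (α / 150))
        hA hB hmax hC (by omega) (by omega) ?_ ?_ (num_p3 τ α (by omega)) (by omega) h4 h3
      · obtain ⟨x₀, hx₀⟩ := hRH
        have h5 := h3 x₀ hx₀
        obtain ⟨f, hf⟩ := gloop hT hA hB hr hrule (x₀ := x₀) (by omega)
          (fun f hfr hinj hadj => inv_start hC hfr hinj (fun z hz => (hadj z hz).2))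
        exact finish hT hW hk hA hB (fun v hv => hLmem v (hLH hv)) hf
      · -- p1
        have h1 : α ≤ 75 * (2 * (α / 150) + 1) + 74 := by omega
        have h2 : α * (153 * τ + 1) ≤ (75 * (2 * (α / 150) + 1) + 74) * (153 * τ + 1) :=
          Nat.mul_le_mul_right _ h1
        have h3 : 15000 * τ * τ ≤ α * τ := Nat.mul_le_mul_right _ hτ
        nlinarith
      · -- p2
        have h1 : α + 1 ≤ 150 * (α / 150 + 1) := by omega
        have h2 : (α + 1) * (306 * τ + 1) ≤ (150 * (α / 150 + 1)) * (306 * τ + 1) :=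
          Nat.mul_le_mul_right _ h1
        nlinarith
  · -- small trees
    have hcore : (2 * A.card - 2) * L.card + (2 * A.card - 2) * Fintype.card V <
        ∑ v ∈ L, G.degree v := lt_of_lt_of_le h6 hLsum
    obtain ⟨LH, RH, hLH, ⟨x₀, hx₀⟩, h4, h3⟩ := exists_core G L _ _ hcore
    have hrule := rule_small (LH := LH) (RH := RH) (r := r) (M := 2 * A.card - 2) hA hB
      (by omega) h3 h4
    have h5 := h3 x₀ hx₀
    obtain ⟨f, hf⟩ := gloop hT hA hB hr hrule (x₀ := x₀) (by omega) (fun _ _ _ _ => trivial)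
    exact finish hT hW hk hA hB (fun v hv => hLmem v (hLH hv)) hf

end

end Pool.Agent.LKS
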