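import Pool.Agent.LKS.Main

/-!
# A general greedy embedding of trees, star by star (helper29)
-/

set_option autoImplicit false
set_option linter.unusedSectionVars false

namespace Pool.Agent.LKS

open Finset
open scoped Classical

section

variable {V W : Type*} [Fintype V] [Fintype W] {G : SimpleGraph V} {T : SimpleGraph W}

/-- The rule by which the next star is embedded. -/
def Rule (G : SimpleGraph V) (T : SimpleGraph W) (B₂ : Finset W) (LH : Finset V) (r : W)
    (Inv : Finset W → (W → V) → Prop) : Prop :=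
  ∀ (S : Finset W) (f : W → V) (x u : W), St G T B₂ LH r S f → Inv S f → x ∈ B₂ → x ∉ S →
    T.Adj x u → u ∈ NS T S → (∀ z, T.Adj x z → z ≠ u → z ∉ S ∪ NS T S) →
    ∃ (x₀ : V) (g : W → V), G.Adj (f u) x₀ ∧ x₀ ∉ (S ∪ NS T S).image f ∧
      Set.InjOn g ((T.neighborFinset x).erase u : Finset W) ∧
      (∀ z ∈ (T.neighborFinset x).erase u,
        g z ∈ LH ∧ G.Adj x₀ (g z) ∧ g z ∉ (S ∪ NS T S).image f) ∧
      ∀ f' : W → V, (∀ a ∈ S ∪ NS T S, f' a = f a) → f' x = x₀ →
        (∀ z ∈ (T.neighborFinset x).erase u, f' z = g z) → Inv (insert x S) f'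

theorem gstep [Nonempty V] (hT : T.IsTree) {A B₂ : Finset W}
    (hA : ∀ a b, T.Adj a b → (a ∈ A ↔ b ∉ A))
    (hB : ∀ x, x ∈ B₂ ↔ x ∉ A ∧ 2 ≤ T.degree x) {r : W} {LH : Finset V}
    {Inv : Finset W → (W → V) → Prop} (hrule : Rule G T B₂ LH r Inv)
    {S : Finset W} {f : W → V} (hS : St G T B₂ LH r S f) (hI : Inv S f) (hne : S ≠ B₂) :
    ∃ x ∈ B₂, x ∉ S ∧ ∃ f' : W → V, St G T B₂ LH r (insert x S) f' ∧ Inv (insert x S) f' := by
  have hrB : r ∈ B₂ := hS.sub hS.mem
  have hrA : r ∉ A := ((hB r).mp hrB).1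
  -- the new centre
  obtain ⟨x, hx, hxmin⟩ : ∃ x ∈ B₂ \ S, ∀ x' ∈ B₂ \ S, T.dist r x ≤ T.dist r x' := by
    apply Finset.exists_min_image
    rw [Finset.sdiff_nonempty]
    exact fun h => hne (Finset.Subset.antisymm hS.sub h)
  rw [Finset.mem_sdiff] at hx
  obtain ⟨hxB, hxS⟩ := hx
  have hxA : x ∉ A := ((hB x).mp hxB).1
  have hxr : x ≠ r := fun h => hxS (h ▸ hS.mem)
  obtain ⟨u, hxu, hdu⟩ := exists_closer hT r hxr
  have huA : u ∈ A := by
    by_contra h
    exact hxA ((hA x u hxu).mpr h)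
  have hur : u ≠ r := fun h => hrA (h ▸ huA)
  obtain ⟨y, huy, hdy⟩ := exists_closer hT r hur
  have hyA : y ∉ A := (hA u y huy).mp huA
  have hyB : y ∈ B₂ := by
    by_cases hyr : y = r
    · rw [hyr]
      exact hrB
    · rw [hB]
      refine ⟨hyA, ?_⟩
      obtain ⟨y', hyy', hdy'⟩ := exists_closer hT r hyr
      have hne' : y' ≠ u := by
        rintro rfl
        omega
      rw [← SimpleGraph.card_neighborFinset_eq_degree]
      have h2 : ({y', u} : Finset W) ⊆ T.neighborFinset y := by
        intro z hz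
        rw [SimpleGraph.mem_neighborFinset]
        rcases Finset.mem_insert.mp hz with rfl | hz
        · exact hyy'
        · rw [Finset.mem_singleton.mp hz]
          exact huy.symm
      calc 2 = ({y', u} : Finset W).card := (Finset.card_pair hne').symm
        _ ≤ _ := Finset.card_le_card h2
  have hyS : y ∈ S := by
    by_contra h
    have := hxmin y (Finset.mem_sdiff.mpr ⟨hyB, h⟩)
    omega
  have huN : u ∈ NS T S := mem_NS.mpr ⟨y, hyS, huy.symm⟩
  -- general facts on `S` and its neighbours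
  have hSA : ∀ a ∈ S, a ∉ A := fun a ha => ((hB a).mp (hS.sub ha)).1
  have hNA : ∀ a ∈ NS T S, a ∈ A := by
    intro a ha
    obtain ⟨y₀, hy₀, had⟩ := mem_NS.mp ha
    by_contra h
    exact hSA y₀ hy₀ ((hA y₀ a had).mpr h)
  set X : Finset W := S ∪ NS T S with hX
  have hxX : x ∉ X := by
    intro h
    rcases Finset.mem_union.mp h with h | h
    · exact hxS h
    · exact hxA (hNA x h)
  -- the children
  set C : Finset W := (T.neighborFinset x).erase u with hCdef
  have hmemC : ∀ z, z ∈ C ↔ z ≠ u ∧ T.Adj x z := by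
    intro z
    rw [hCdef, Finset.mem_erase, SimpleGraph.mem_neighborFinset]
  have hCA : ∀ z ∈ C, z ∈ A := by
    intro z hz
    by_contra h
    exact hxA ((hA x z ((hmemC z).mp hz).2).mpr h)
  have hCX : ∀ z ∈ C, z ∉ X := by
    intro z hz hzX
    obtain ⟨hzu, hxz⟩ := (hmemC z).mp hz
    rcases Finset.mem_union.mp hzX with h | h
    · exact hSA z h (hCA z hz)
    · obtain ⟨y', hy', had⟩ := mem_NS.mp h
      have hd1 : T.dist r z = T.dist r x + 1 := by
        rcases hT.dist_eq_dist_add_one_of_adj r hxz with h1 | h1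
        · exact absurd (closer_unique hT r hxz hxu h1 hdu) hzu
        · exact h1
      have hord := hS.ord y' hy' x hxB hxS
      rcases hT.dist_eq_dist_add_one_of_adj r had with h1 | h1
      · omega
      · have hyx : y' = x := closer_unique hT r had.symm hxz.symm h1 hd1
        exact hxS (hyx ▸ hy')
  have hCcard : C.card = T.degree x - 1 := by
    rw [hCdef, Finset.card_erase_of_mem, SimpleGraph.card_neighborFinset_eq_degree]
    rw [SimpleGraph.mem_neighborFinset]
    exact hxu
  obtain ⟨x₀, g, hvx₀, hx₀U, hginj, hgmem', hInv⟩ := hrule S f x u hS hI hxB hxS hxu huN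
    (fun z h1 h2 => hCX z ((hmemC z).mpr ⟨h2, h1⟩))
  obtain ⟨f', hf'X, hf'x, hf'C, hf'⟩ := emb_star G T hS.emb hxX hCX
    (fun h => T.loopless.irrefl x ((hmemC x).mp h).2)
    (fun a ha e => hx₀U (by rw [← e]; exact Finset.mem_image_of_mem f ha)) hginj
    (fun z hz e => G.loopless.irrefl x₀ (by have := (hgmem' z hz).2.1; rwa [e] at this))
    (fun z hz a ha e => (hgmem' z hz).2.2 (by rw [← e]; exact Finset.mem_image_of_mem f ha))
    (fun a ha had => by
      by_cases hau : a = u
      · rw [hau]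
        exact hvx₀
      · exact absurd ha (hCX a ((hmemC a).mpr ⟨hau, had.symm⟩)))
    (fun z hz => (hgmem' z hz).2.1)
    (fun z hz a ha had => by
      rcases Finset.mem_union.mp ha with h | h
      · exact hCX z hz (Finset.mem_union_right _ (mem_NS.mpr ⟨a, h, had⟩))
      · exact (hA a z had).mp (hNA a h) (hCA z hz))
    (fun z hz z' hz' had => (hA z z' had).mp (hCA z hz) (hCA z' hz'))
  have hNSins : NS T (insert x S) = C ∪ NS T S := by
    ext z
    rw [Finset.mem_union, hmemC, mem_NS, mem_NS]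
    constructor
    · rintro ⟨y₀, hy₀, had⟩
      rcases Finset.mem_insert.mp hy₀ with rfl | hy₀
      · by_cases hzu : z = u
        · right
          rw [hzu]
          exact mem_NS.mp huN
        · exact Or.inl ⟨hzu, had⟩
      · exact Or.inr ⟨y₀, hy₀, had⟩
    · rintro (⟨-, had⟩ | ⟨y₀, hy₀, had⟩)
      · exact ⟨x, Finset.mem_insert_self _ _, had⟩
      · exact ⟨y₀, Finset.mem_insert_of_mem hy₀, had⟩
  refine ⟨x, hxB, hxS, f', ⟨?_, ?_, ?_, ?_, ?_, ?_⟩, hInv f' hf'X hf'x hf'C⟩
  · intro z hz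
    rcases Finset.mem_insert.mp hz with rfl | hz
    · exact hxB
    · exact hS.sub hz
  · exact Finset.mem_insert_of_mem hS.mem
  · intro y₀ hy₀ x' hx' hx'S
    have h1 : x' ∉ S := fun h => hx'S (Finset.mem_insert_of_mem h)
    rcases Finset.mem_insert.mp hy₀ with rfl | hy₀
    · exact hxmin x' (Finset.mem_sdiff.mpr ⟨hx', h1⟩)
    · exact hS.ord y₀ hy₀ x' hx' h1
  · refine hf'.mono ?_
    rw [hNSins]
    intro z hz
    rw [Finset.mem_union, Finset.mem_insert, Finset.mem_union] at hz
    rw [Finset.mem_insert, Finset.mem_union, Finset.mem_union]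
    tauto
  · intro a ha
    rw [hNSins, Finset.mem_union] at ha
    rcases ha with ha | ha
    · rw [hf'C a ha]
      exact (hgmem' a ha).1
    · rw [hf'X a (Finset.mem_union_right _ ha)]
      exact hS.left a ha
  · rw [hNSins, Finset.card_union_of_disjoint, Finset.sum_insert hxS, hCcard, hS.card]
    · omega
    · rw [Finset.disjoint_left]
      intro z hz hz'
      exact hCX z hz (Finset.mem_union_right _ hz')

/-- The greedy embedding of the tree without the leaves of the second colour class. -/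
theorem gloop [Nonempty V] (hT : T.IsTree) {A B₂ : Finset W}
    (hA : ∀ a b, T.Adj a b → (a ∈ A ↔ b ∉ A))
    (hB : ∀ x, x ∈ B₂ ↔ x ∉ A ∧ 2 ≤ T.degree x) {r : W} (hr : r ∈ B₂) {LH : Finset V}
    {Inv : Finset W → (W → V) → Prop} (hrule : Rule G T B₂ LH r Inv) {x₀ : V}
    (hx₀ : T.degree r ≤ (LH.filter (G.Adj x₀)).card)
    (hInv₀ : ∀ f : W → V, f r = x₀ → Set.InjOn f (T.neighborFinset r : Finset W) →
      (∀ z, T.Adj r z → f z ∈ LH ∧ G.Adj x₀ (f z)) → Inv {r} f) :
    ∃ f : W → V, St G T B₂ LH r B₂ f := by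
  have key : ∀ n : ℕ, ∀ (S : Finset W) (f : W → V), (B₂ \ S).card = n → St G T B₂ LH r S f →
      Inv S f → ∃ f : W → V, St G T B₂ LH r B₂ f := by
    intro n
    induction n with
    | zero =>
      intro S f hn hS _
      have h1 : B₂ \ S = ∅ := Finset.card_eq_zero.mp hn
      have h2 : S = B₂ := Finset.Subset.antisymm hS.sub (Finset.sdiff_eq_empty_iff_subset.mp h1)
      exact ⟨f, h2 ▸ hS⟩
    | succ n ih =>
      intro S f hn hS hI
      have hne : S ≠ B₂ := by
        rintro rfl
        simp at hn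
      obtain ⟨x, hx, hxS, f', hf', hI'⟩ := gstep hT hA hB hrule hS hI hne
      refine ih (insert x S) f' ?_ hf' hI'
      have h1 : B₂ \ insert x S = (B₂ \ S).erase x := by
        ext z
        simp only [Finset.mem_sdiff, Finset.mem_insert, Finset.mem_erase]
        tauto
      rw [h1, Finset.card_erase_of_mem (Finset.mem_sdiff.mpr ⟨hx, hxS⟩), hn]
      rfl
  have hrA : r ∉ A := ((hB r).mp hr).1
  have hr2 : 2 ≤ T.degree r := ((hB r).mp hr).2
  obtain ⟨g, hginj, hgmem⟩ := exists_inj (T.neighborFinset r) (LH.filter (G.Adj x₀)) (by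
    rw [SimpleGraph.card_neighborFinset_eq_degree]
    exact hx₀)
  have hgmem' : ∀ z ∈ T.neighborFinset r, g z ∈ LH ∧ G.Adj x₀ (g z) := by
    intro z hz
    exact Finset.mem_filter.mp (hgmem z hz)
  have hNr : ∀ z ∈ T.neighborFinset r, z ∈ A := by
    intro z hz
    by_contra h
    exact hrA ((hA r z (SimpleGraph.mem_neighborFinset _ _ _ |>.mp hz)).mpr h)
  obtain ⟨f', -, hf'x, hf'C, hf'⟩ := emb_star G T (f := fun _ => x₀) (g := g) (X := ∅)
    (C := T.neighborFinset r) (x := r) (x₀ := x₀)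
    ⟨fun a ha => absurd ha (Finset.notMem_empty a), fun a ha => absurd ha (Finset.notMem_empty a)⟩
    (Finset.notMem_empty r) (fun z _ => Finset.notMem_empty z)
    (fun h => T.loopless.irrefl r (SimpleGraph.mem_neighborFinset _ _ _ |>.mp h))
    (fun a ha => absurd ha (Finset.notMem_empty a)) hginj
    (fun z hz e => G.loopless.irrefl x₀ (by have := (hgmem' z hz).2; rwa [e] at this))
    (fun z _ a ha => absurd ha (Finset.notMem_empty a))
    (fun a ha => absurd ha (Finset.notMem_empty a)) (fun z hz => (hgmem' z hz).2)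
    (fun z _ a ha => absurd ha (Finset.notMem_empty a))
    (fun z hz z' hz' had => (hA z z' had).mp (hNr z hz) (hNr z' hz'))
  have hNS : NS T {r} = T.neighborFinset r := by
    rw [NS, Finset.singleton_biUnion]
  refine key _ {r} f' rfl ⟨?_, Finset.mem_singleton_self r, ?_, ?_, ?_, ?_⟩ ?_
  · rw [Finset.singleton_subset_iff]
    exact hr
  · intro y hy x _ _
    rw [Finset.mem_singleton.mp hy, SimpleGraph.dist_self]
    exact Nat.zero_le _
  · refine hf'.mono ?_
    rw [hNS]
    intro z hz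
    rw [Finset.mem_union, Finset.mem_singleton] at hz
    rw [Finset.mem_insert, Finset.mem_union]
    tauto
  · intro a ha
    rw [hNS] at ha
    rw [hf'C a ha]
    exact (hgmem' a ha).1
  · rw [hNS, SimpleGraph.card_neighborFinset_eq_degree, Finset.sum_singleton]
    omega
  · refine hInv₀ f' hf'x ?_ ?_
    · intro a ha b hb hab
      rw [Finset.mem_coe] at ha hb
      rw [hf'C a ha, hf'C b hb] at hab
      exact hginj ha hb hab
    · intro z hz
      have hz' : z ∈ T.neighborFinset r := (SimpleGraph.mem_neighborFinset _ _ _).mpr hz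
      rw [hf'C z hz']
      exact hgmem' z hz'

/-- The number of elements of a colour class. -/
theorem card_class (hT : T.IsTree) {k : ℕ} (hW : Fintype.card W = k + 1) (hk : 1 ≤ k)
    {A B₂ : Finset W} (hA : ∀ a b, T.Adj a b → (a ∈ A ↔ b ∉ A))
    (hB : ∀ x, x ∈ B₂ ↔ x ∉ A ∧ 2 ≤ T.degree x) :
    A.card = 1 + ∑ x ∈ B₂, (T.degree x - 1) := by
  have hnt : Nontrivial W := Fintype.one_lt_card_iff_nontrivial.mp (by omega)
  have hdeg1 : ∀ w : W, 1 ≤ T.degree w := fun w =>
    hT.connected.preconnected.degree_pos_of_nontrivial w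
  have h1 := sum_degree hT A hA
  have h2 : ∑ x ∈ univ.filter (fun x => x ∉ A), T.degree x =
      ∑ x ∈ univ.filter (fun x => x ∉ A), (T.degree x - 1) +
        (univ.filter (fun x => x ∉ A)).card := by
    rw [Finset.card_eq_sum_ones, ← Finset.sum_add_distrib]
    refine Finset.sum_congr rfl fun x _ => ?_
    have := hdeg1 x
    omega
  have h3 : ∑ x ∈ B₂, (T.degree x - 1) =
      ∑ x ∈ univ.filter (fun x => x ∉ A), (T.degree x - 1) := by
    refine Finset.sum_subset ?_ ?_
    · intro x hx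
      rw [Finset.mem_filter]
      exact ⟨Finset.mem_univ _, ((hB x).mp hx).1⟩
    · intro x hx hx'
      rw [hB] at hx'
      have h4 := (Finset.mem_filter.mp hx).2
      have h5 := hdeg1 x
      by_contra h6
      exact hx' ⟨h4, by omega⟩
  have h4 : (univ.filter (fun x => x ∉ A)).card + A.card = Fintype.card W := by
    have h5 : univ.filter (fun x => x ∉ A) = Aᶜ := by
      ext x
      simp
    rw [h5, Finset.card_compl]
    have := Finset.card_le_univ A
    omega
  omega

/-- The end of the embedding: the leaves of the second colour class. -/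
theorem finish [Nonempty V] (hT : T.IsTree) {k : ℕ} (hW : Fintype.card W = k + 1) (hk : 1 ≤ k)
    {A B₂ : Finset W} (hA : ∀ a b, T.Adj a b → (a ∈ A ↔ b ∉ A))
    (hB : ∀ x, x ∈ B₂ ↔ x ∉ A ∧ 2 ≤ T.degree x) {r : W} {LH : Finset V}
    (hL : ∀ v ∈ LH, k ≤ G.degree v) {f : W → V} (hf : St G T B₂ LH r B₂ f) :
    ∃ f : W → V, Function.Injective f ∧ (∀ a b, T.Adj a b → G.Adj (f a) (f b)) ∧
      ∀ a ∈ A, k ≤ G.degree (f a) := by
  have hnt : Nontrivial W := Fintype.one_lt_card_iff_nontrivial.mp (by omega)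
  have hdeg1 : ∀ w : W, 1 ≤ T.degree w := fun w =>
    hT.connected.preconnected.degree_pos_of_nontrivial w
  have hcardA := card_class hT hW hk hA hB
  have hNSA : NS T B₂ = A := by
    refine Finset.eq_of_subset_of_card_le ?_ ?_
    · intro a ha
      obtain ⟨y, hy, had⟩ := mem_NS.mp ha
      by_contra h
      exact ((hB y).mp hy).1 ((hA y a had).mpr h)
    · rw [hf.card, hcardA]
  have hemb := hf.emb
  have hleft := hf.left
  rw [hNSA] at hemb hleft
  obtain ⟨f', hf', hf'A⟩ := stage_two (G := G) (T := T) hA hW _ (B₂ ∪ A) f rfl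
    Finset.subset_union_right (by
      intro w hw
      rw [Finset.mem_union, not_or, hB] at hw
      have h2 := hdeg1 w
      by_contra h3
      exact hw.1 ⟨hw.2, by omega⟩) hemb (fun a ha => hL _ (hleft a ha))
  exact ⟨f', fun a b hab => hf'.inj a (Finset.mem_univ a) b (Finset.mem_univ b) hab,
    fun a b hab => hf'.hom a (Finset.mem_univ a) b (Finset.mem_univ b) hab,
    fun a ha => by rw [hf'A a ha]; exact hL _ (hleft a ha)⟩

/-- Stars. -/
theorem star_case [Nonempty V] (hT : T.IsTree) {k : ℕ} (hW : Fintype.card W = k + 1)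
    (hk : 1 ≤ k) {A B₂ : Finset W} (hA : ∀ a b, T.Adj a b → (a ∈ A ↔ b ∉ A))
    (hB : ∀ x, x ∈ B₂ ↔ x ∉ A ∧ 2 ≤ T.degree x) (h0 : B₂ = ∅) {v : V} (hv : k ≤ G.degree v) :
    ∃ f : W → V, Function.Injective f ∧ (∀ a b, T.Adj a b → G.Adj (f a) (f b)) ∧
      ∀ a ∈ A, k ≤ G.degree (f a) := by
  have hnt : Nontrivial W := Fintype.one_lt_card_iff_nontrivial.mp (by omega)
  have hdeg1 : ∀ w : W, 1 ≤ T.degree w := fun w =>
    hT.connected.preconnected.degree_pos_of_nontrivial w
  have hcardA := card_class hT hW hk hA hB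
  rw [h0, Finset.sum_empty] at hcardA
  obtain ⟨u, hu⟩ := Finset.card_eq_one.mp (by omega : A.card = 1)
  obtain ⟨f', hf', hf'A⟩ := stage_two (G := G) (T := T) hA hW _ A (fun _ => v) rfl
    (Finset.Subset.refl _) (by
      intro w hw
      have h1 : w ∉ B₂ := by rw [h0]; exact Finset.notMem_empty w
      rw [hB] at h1
      have h2 := hdeg1 w
      by_contra h3
      exact h1 ⟨hw, by omega⟩) ⟨(by
      intro a ha b hb _
      rw [hu, Finset.mem_singleton] at ha hb
      rw [ha, hb]), (by
      intro a ha b hb hab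
      exact absurd hb ((hA a b hab).mp ha))⟩ (fun _ _ => hv)
  exact ⟨f', fun a b hab => hf'.inj a (Finset.mem_univ a) b (Finset.mem_univ b) hab,
    fun a b hab => hf'.hom a (Finset.mem_univ a) b (Finset.mem_univ b) hab,
    fun a ha => by rw [hf'A a ha]; exact hv⟩

end

end Pool.Agent.LKS
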