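import Mathlib

/-!
# Rooted trees: parents (helper29)
-/

set_option autoImplicit false
set_option linter.unusedSectionVars false

namespace Pool.Agent.LKS

open Finset
open scoped Classical

variable {W : Type*} {T : SimpleGraph W}

theorem exists_closer (hT : T.IsTree) (r : W) {w : W} (hw : w ≠ r) :
    ∃ z, T.Adj w z ∧ T.dist r w = T.dist r z + 1 := by
  obtain ⟨p, hp⟩ := (hT.connected w r).exists_walk_length_eq_dist
  cases p with
  | nil => exact absurd rfl hw
  | @cons _ z _ h q =>
    refine ⟨z, h, ?_⟩
    rcases hT.dist_eq_dist_add_one_of_adj r h with h1 | h1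
    · exact h1
    · exfalso
      have h2 : T.dist z r ≤ q.length := SimpleGraph.dist_le q
      rw [SimpleGraph.Walk.length_cons] at hp
      rw [SimpleGraph.dist_comm (u := r) (v := z), SimpleGraph.dist_comm (u := r) (v := w)] at h1
      omega

theorem closer_unique (hT : T.IsTree) (r : W) {w z z' : W} (h : T.Adj w z) (h' : T.Adj w z')
    (hz : T.dist r w = T.dist r z + 1) (hz' : T.dist r w = T.dist r z' + 1) : z = z' := by
  obtain ⟨p, hp, hpl⟩ := (hT.connected r w).exists_path_of_dist
  have key : ∀ y : W, T.Adj w y → T.dist r w = T.dist r y + 1 → y = p.penultimate := by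
    intro y hy hd
    obtain ⟨q, hq, hql⟩ := (hT.connected r y).exists_path_of_dist
    have h1 : w ∉ q.support := by
      intro hmem
      have h2 : T.dist r w ≤ (q.takeUntil w hmem).length := SimpleGraph.dist_le _
      have h3 := q.length_takeUntil_le_length hmem
      omega
    have h4 : y ∈ p.support :=
      hT.isAcyclic.mem_support_of_ne_mem_support_of_adj_of_isPath hp hq hy h1
    exact hT.isAcyclic.eq_penultimate_of_adj_end hp hy h4
  rw [key z h hz, key z' h' hz']

/-- The degree sum over a colour class. -/
theorem sum_degree [Fintype W] (hT : T.IsTree) (A : Finset W)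
    (hA : ∀ a b, T.Adj a b → (a ∈ A ↔ b ∉ A)) :
    ∑ x ∈ univ.filter (fun x => x ∉ A), T.degree x + 1 = Fintype.card W := by
  have h1 : T.IsBipartiteWith (↑(univ.filter (fun x => x ∉ A)) : Set W) (↑A : Set W) := by
    constructor
    · rw [Set.disjoint_left]
      intro x hx hx'
      have := (Finset.mem_filter.mp (Finset.mem_coe.mp hx)).2
      exact this hx'
    · intro a b hab
      have h2 := hA a b hab
      by_cases ha : a ∈ A
      · right
        refine ⟨ha, ?_⟩
        rw [Finset.mem_coe, Finset.mem_filter]
        exact ⟨Finset.mem_univ _, h2.mp ha⟩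
      · left
        refine ⟨?_, ?_⟩
        · rw [Finset.mem_coe, Finset.mem_filter]
          exact ⟨Finset.mem_univ _, ha⟩
        · by_contra hb
          exact ha (h2.mpr hb)
  rw [SimpleGraph.isBipartiteWith_sum_degrees_eq_card_edges h1]
  exact hT.card_edgeFinset

end Pool.Agent.LKS
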