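import Pool.Agent.LKS.CFour
import Pool.Agent.LKS.Tree

/-!
# The Komlós–Sós conjecture for graphs without cycles of length four: the embedding (helper29)
-/

set_option autoImplicit false
set_option linter.unusedSectionVars false

namespace Pool.Agent.LKS

open Finset
open scoped Classical

section

variable {V W : Type*} [Fintype V] [Fintype W] (G : SimpleGraph V) (T : SimpleGraph W)

theorem Emb.mono {G : SimpleGraph V} {T : SimpleGraph W} {f : W → V} {X Y : Finset W}
    (h : Emb G T f Y) (hXY : X ⊆ Y) : Emb G T f X :=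
  ⟨fun a ha b hb => h.inj a (hXY ha) b (hXY hb), fun a ha b hb => h.hom a (hXY ha) b (hXY hb)⟩

/-- The neighbours of the elements of `S`. -/
noncomputable def NS (S : Finset W) : Finset W := S.biUnion fun x => T.neighborFinset x

theorem mem_NS {T : SimpleGraph W} {S : Finset W} {a : W} :
    a ∈ NS T S ↔ ∃ y ∈ S, T.Adj y a := by
  simp [NS]

/-- The state after embedding the stars with centres in `S`. -/
structure St (B₂ : Finset W) (LH : Finset V) (r : W) (S : Finset W) (f : W → V) : Prop where
  sub : S ⊆ B₂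
  mem : r ∈ S
  ord : ∀ y ∈ S, ∀ x ∈ B₂, x ∉ S → T.dist r y ≤ T.dist r x
  emb : Emb G T f (S ∪ NS T S)
  left : ∀ a ∈ NS T S, f a ∈ LH
  card : (NS T S).card = 1 + ∑ x ∈ S, (T.degree x - 1)

variable {G T}

theorem step [Nonempty V] (hT : T.IsTree)
    (hC4 : ∀ p q : V, p ≠ q → (univ.filter fun z => G.Adj p z ∧ G.Adj q z).card ≤ 1)
    {A B₂ : Finset W} (hA : ∀ a b, T.Adj a b → (a ∈ A ↔ b ∉ A))
    (hB : ∀ x, x ∈ B₂ ↔ x ∉ A ∧ 2 ≤ T.degree x) {r : W}
    (hmax : ∀ x ∈ B₂, T.degree x ≤ T.degree r) {LH RH : Finset V} {ρ : ℕ}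
    (hρ : ∑ x ∈ B₂.erase r, (T.degree x - 1) = ρ)
    (h3 : ∀ x ∈ RH, T.degree r - 1 < (LH.filter (G.Adj x)).card)
    (h4 : ∀ v ∈ LH, 2 * ρ < (RH.filter (G.Adj v)).card)
    {S : Finset W} {f : W → V} (hS : St G T B₂ LH r S f) (hne : S ≠ B₂) :
    ∃ x ∈ B₂, x ∉ S ∧ ∃ f' : W → V, St G T B₂ LH r (insert x S) f' := by
  have hrB : r ∈ B₂ := hS.sub hS.mem
  have hrA : r ∉ A := ((hB r).mp hrB).1
  -- the new centre
  obtain ⟨x, hx, hxmin⟩ : ∃ x ∈ B₂ \ S, ∀ x' ∈ B₂ \ S, T.dist r x ≤ T.dist r x' := by
    apply Finset.exists_min_image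
    rw [Finset.sdiff_nonempty]
    exact fun h => hne (Finset.Subset.antisymm hS.sub h)
  rw [Finset.mem_sdiff] at hx
  obtain ⟨hxB, hxS⟩ := hx
  have hxA : x ∉ A := ((hB x).mp hxB).1
  have hxr : x ≠ r := fun h => hxS (h ▸ hS.mem)
  obtain ⟨u, hxu, hdu⟩ := exists_closer hT r hxr
  have huA : u ∈ A := by
    by_contra h
    exact hxA ((hA x u hxu).mpr h)
  have hur : u ≠ r := fun h => hrA (h ▸ huA)
  obtain ⟨y, huy, hdy⟩ := exists_closer hT r hur
  have hyA : y ∉ A := (hA u y huy).mp huA
  have hyB : y ∈ B₂ := by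
    by_cases hyr : y = r
    · rw [hyr]
      exact hrB
    · rw [hB]
      refine ⟨hyA, ?_⟩
      obtain ⟨y', hyy', hdy'⟩ := exists_closer hT r hyr
      have hne' : y' ≠ u := by
        rintro rfl
        omega
      rw [← SimpleGraph.card_neighborFinset_eq_degree]
      have h2 : ({y', u} : Finset W) ⊆ T.neighborFinset y := by
        intro z hz
        rw [SimpleGraph.mem_neighborFinset]
        rcases Finset.mem_insert.mp hz with rfl | hz
        · exact hyy'
        · rw [Finset.mem_singleton.mp hz]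
          exact huy.symm
      calc 2 = ({y', u} : Finset W).card := (Finset.card_pair hne').symm
        _ ≤ _ := Finset.card_le_card h2
  have hyS : y ∈ S := by
    by_contra h
    have := hxmin y (Finset.mem_sdiff.mpr ⟨hyB, h⟩)
    omega
  have huN : u ∈ NS T S := mem_NS.mpr ⟨y, hyS, huy.symm⟩
  -- general facts on `S` and its neighbours
  have hSA : ∀ a ∈ S, a ∉ A := fun a ha => ((hB a).mp (hS.sub ha)).1
  have hNA : ∀ a ∈ NS T S, a ∈ A := by
    intro a ha
    obtain ⟨y₀, hy₀, had⟩ := mem_NS.mp ha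
    by_contra h
    exact hSA y₀ hy₀ ((hA y₀ a had).mpr h)
  have hdisj : Disjoint S (NS T S) := by
    rw [Finset.disjoint_left]
    intro a ha ha'
    exact hSA a ha (hNA a ha')
  set X : Finset W := S ∪ NS T S with hX
  have hxX : x ∉ X := by
    intro h
    rcases Finset.mem_union.mp h with h | h
    · exact hxS h
    · exact hxA (hNA x h)
  -- the children
  set C : Finset W := (T.neighborFinset x).erase u with hCdef
  have hmemC : ∀ z, z ∈ C ↔ z ≠ u ∧ T.Adj x z := by
    intro z
    rw [hCdef, Finset.mem_erase, SimpleGraph.mem_neighborFinset]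
  have hCA : ∀ z ∈ C, z ∈ A := by
    intro z hz
    by_contra h
    exact hxA ((hA x z ((hmemC z).mp hz).2).mpr h)
  have hCX : ∀ z ∈ C, z ∉ X := by
    intro z hz hzX
    obtain ⟨hzu, hxz⟩ := (hmemC z).mp hz
    rcases Finset.mem_union.mp hzX with h | h
    · exact hSA z h (hCA z hz)
    · obtain ⟨y', hy', had⟩ := mem_NS.mp h
      have hd1 : T.dist r z = T.dist r x + 1 := by
        rcases hT.dist_eq_dist_add_one_of_adj r hxz with h1 | h1
        · exact absurd (closer_unique hT r hxz hxu h1 hdu) hzu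
        · exact h1
      have hord := hS.ord y' hy' x hxB hxS
      rcases hT.dist_eq_dist_add_one_of_adj r had with h1 | h1
      · omega
      · have hyx : y' = x := closer_unique hT r had.symm hxz.symm h1 hd1
        exact hxS (hyx ▸ hy')
  have hCcard : C.card = T.degree x - 1 := by
    rw [hCdef, Finset.card_erase_of_mem, SimpleGraph.card_neighborFinset_eq_degree]
    rw [SimpleGraph.mem_neighborFinset]
    exact hxu
  -- the used vertices
  set U₀ : Finset V := X.image f with hU₀
  have huX : u ∈ X := Finset.mem_union_right _ huN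
  have hv : f u ∈ U₀ := Finset.mem_image_of_mem f huX
  have hinj := hS.emb.inj
  have hhom := hS.emb.hom
  have hUcard : U₀.card = S.card + (1 + ∑ x ∈ S, (T.degree x - 1)) := by
    rw [hU₀, Finset.card_image_of_injOn (fun a ha b hb => hinj a ha b hb),
      Finset.card_union_of_disjoint hdisj, hS.card]
  have hsumS : ∑ x ∈ S, (T.degree x - 1) =
      (T.degree r - 1) + ∑ x ∈ S.erase r, (T.degree x - 1) :=
    (Finset.add_sum_erase _ _ hS.mem).symm
  have hdeg2 : ∀ a ∈ B₂, 2 ≤ T.degree a := fun a ha => ((hB a).mp ha).2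
  have hPs : S.card ≤ ∑ x ∈ S.erase r, (T.degree x - 1) + 1 := by
    have h1 : ∑ _x ∈ S.erase r, 1 ≤ ∑ x ∈ S.erase r, (T.degree x - 1) := by
      refine Finset.sum_le_sum fun a ha => ?_
      have := hdeg2 a (hS.sub (Finset.mem_of_mem_erase ha))
      omega
    rw [Finset.sum_const, smul_eq_mul, mul_one] at h1
    have h2 := Finset.card_erase_add_one hS.mem
    omega
  have hPρ : ∑ x ∈ S.erase r, (T.degree x - 1) + (T.degree x - 1) ≤ ρ := by
    have h1 : insert x (S.erase r) ⊆ B₂.erase r := by
      intro z hz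
      rw [Finset.mem_erase]
      rcases Finset.mem_insert.mp hz with rfl | hz
      · exact ⟨hxr, hxB⟩
      · exact ⟨Finset.ne_of_mem_erase hz, hS.sub (Finset.mem_of_mem_erase hz)⟩
    have h2 : ∑ z ∈ insert x (S.erase r), (T.degree z - 1) ≤ ρ := by
      rw [← hρ]
      exact Finset.sum_le_sum_of_subset h1
    rw [Finset.sum_insert (fun h => hxS (Finset.mem_of_mem_erase h))] at h2
    omega
  have hcen := exists_centre G hC4 LH RH U₀ (f u) hv (T.degree r - 1) (T.degree x - 1) ρ
    (∑ x ∈ S.erase r, (T.degree x - 1)) S.card ?_ ?_ h3 (h4 _ (hS.left u huN)) (by omega) hPs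
    hPρ (by have := hdeg2 x hxB; omega) (by have := hmax x hxB; omega)
  rotate_left
  · -- used neighbours have used neighbours
    intro y₀ hy₀ _
    obtain ⟨w₀, hw₀, rfl⟩ := Finset.mem_image.mp hy₀
    rcases Finset.mem_union.mp hw₀ with h | h
    · have h2 := hdeg2 w₀ (hS.sub h)
      rw [← SimpleGraph.card_neighborFinset_eq_degree] at h2
      obtain ⟨z, hz, hzu⟩ := Finset.exists_mem_ne (s := T.neighborFinset w₀) (by omega) u
      rw [SimpleGraph.mem_neighborFinset] at hz
      have hzX : z ∈ X := Finset.mem_union_right _ (mem_NS.mpr ⟨w₀, h, hz⟩)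
      exact ⟨f z, Finset.mem_image_of_mem f hzX, fun e => hzu (hinj z hzX u huX e),
        hhom w₀ hw₀ z hzX hz⟩
    · obtain ⟨y₁, hy₁, had⟩ := mem_NS.mp h
      have hyX : y₁ ∈ X := Finset.mem_union_left _ hy₁
      refine ⟨f y₁, Finset.mem_image_of_mem f hyX, fun e => ?_, hhom w₀ hw₀ y₁ hyX had.symm⟩
      exact hSA y₁ hy₁ (by rw [hinj y₁ hyX u huX e]; exact huA)
  · -- few used neighbours
    have hsub : U₀.filter (G.Adj (f u)) ⊆ S.biUnion (fun y₀ => insert (f y₀)
        (univ.filter fun z => G.Adj (f u) z ∧ G.Adj (f y₀) z)) := by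
      intro z hz
      rw [Finset.mem_filter] at hz
      obtain ⟨w₀, hw₀, rfl⟩ := Finset.mem_image.mp hz.1
      rw [Finset.mem_biUnion]
      rcases Finset.mem_union.mp hw₀ with h | h
      · exact ⟨w₀, h, Finset.mem_insert_self _ _⟩
      · obtain ⟨y₁, hy₁, had⟩ := mem_NS.mp h
        refine ⟨y₁, hy₁, Finset.mem_insert_of_mem ?_⟩
        rw [Finset.mem_filter]
        exact ⟨Finset.mem_univ _, hz.2,
          hhom y₁ (Finset.mem_union_left _ hy₁) w₀ hw₀ had⟩
    refine le_trans (Finset.card_le_card hsub) ?_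
    rw [mul_comm]
    refine Finset.card_biUnion_le_card_mul _ _ _ fun y₀ hy₀ => ?_
    refine le_trans (Finset.card_insert_le _ _) ?_
    have hne' : f u ≠ f y₀ := by
      intro e
      exact hSA y₀ hy₀ (by rw [← hinj u huX y₀ (Finset.mem_union_left _ hy₀) e]; exact huA)
    have := hC4 (f u) (f y₀) hne'
    omega
  obtain ⟨x₀, -, hvx₀, hx₀U, hcx₀⟩ := hcen
  obtain ⟨g, hginj, hgmem⟩ := exists_inj C ((LH.filter (G.Adj x₀)) \ U₀)
    (by rw [hCcard]; exact hcx₀)
  have hgmem' : ∀ z ∈ C, g z ∈ LH ∧ G.Adj x₀ (g z) ∧ g z ∉ U₀ := by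
    intro z hz
    have := hgmem z hz
    rw [Finset.mem_sdiff, Finset.mem_filter] at this
    exact ⟨this.1.1, this.1.2, this.2⟩
  obtain ⟨f', hf'X, hf'x, hf'C, hf'⟩ := emb_star G T hS.emb hxX hCX
    (fun h => T.loopless.irrefl x ((hmemC x).mp h).2)
    (fun a ha e => hx₀U (by rw [← e]; exact Finset.mem_image_of_mem f ha)) hginj
    (fun z hz e => G.loopless.irrefl x₀ (by have := (hgmem' z hz).2.1; rwa [e] at this))
    (fun z hz a ha e => (hgmem' z hz).2.2 (by rw [← e]; exact Finset.mem_image_of_mem f ha))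
    (fun a ha had => by
      by_cases hau : a = u
      · rw [hau]
        exact hvx₀
      · exact absurd ha (hCX a ((hmemC a).mpr ⟨hau, had.symm⟩)))
    (fun z hz => (hgmem' z hz).2.1)
    (fun z hz a ha had => by
      rcases Finset.mem_union.mp ha with h | h
      · exact hCX z hz (Finset.mem_union_right _ (mem_NS.mpr ⟨a, h, had⟩))
      · exact (hA a z had).mp (hNA a h) (hCA z hz))
    (fun z hz z' hz' had => (hA z z' had).mp (hCA z hz) (hCA z' hz'))
  have hNSins : NS T (insert x S) = C ∪ NS T S := by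
    ext z
    rw [Finset.mem_union, hmemC, mem_NS, mem_NS]
    constructor
    · rintro ⟨y₀, hy₀, had⟩
      rcases Finset.mem_insert.mp hy₀ with rfl | hy₀
      · by_cases hzu : z = u
        · right
          rw [hzu]
          exact mem_NS.mp huN
        · exact Or.inl ⟨hzu, had⟩
      · exact Or.inr ⟨y₀, hy₀, had⟩
    · rintro (⟨-, had⟩ | ⟨y₀, hy₀, had⟩)
      · exact ⟨x, Finset.mem_insert_self _ _, had⟩
      · exact ⟨y₀, Finset.mem_insert_of_mem hy₀, had⟩
  refine ⟨x, hxB, hxS, f', ?_, ?_, ?_, ?_, ?_, ?_⟩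
  · intro z hz
    rcases Finset.mem_insert.mp hz with rfl | hz
    · exact hxB
    · exact hS.sub hz
  · exact Finset.mem_insert_of_mem hS.mem
  · intro y₀ hy₀ x' hx' hx'S
    have h1 : x' ∉ S := fun h => hx'S (Finset.mem_insert_of_mem h)
    rcases Finset.mem_insert.mp hy₀ with rfl | hy₀
    · exact hxmin x' (Finset.mem_sdiff.mpr ⟨hx', h1⟩)
    · exact hS.ord y₀ hy₀ x' hx' h1
  · refine hf'.mono ?_
    rw [hNSins]
    intro z hz
    rw [Finset.mem_union, Finset.mem_insert, Finset.mem_union] at hz
    rw [Finset.mem_insert, Finset.mem_union, Finset.mem_union]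
    tauto
  · intro a ha
    rw [hNSins, Finset.mem_union] at ha
    rcases ha with ha | ha
    · rw [hf'C a ha]
      exact (hgmem' a ha).1
    · rw [hf'X a (Finset.mem_union_right _ ha)]
      exact hS.left a ha
  · rw [hNSins, Finset.card_union_of_disjoint, Finset.sum_insert hxS, hCcard, hS.card]
    · omega
    · rw [Finset.disjoint_left]
      intro z hz hz'
      exact hCX z hz (Finset.mem_union_right _ hz')

/-- The embedding of the tree without the leaves of the second colour class. -/
theorem stage_one [Nonempty V] (hT : T.IsTree)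
    (hC4 : ∀ p q : V, p ≠ q → (univ.filter fun z => G.Adj p z ∧ G.Adj q z).card ≤ 1)
    {A B₂ : Finset W} (hA : ∀ a b, T.Adj a b → (a ∈ A ↔ b ∉ A))
    (hB : ∀ x, x ∈ B₂ ↔ x ∉ A ∧ 2 ≤ T.degree x) {r : W} (hr : r ∈ B₂)
    (hmax : ∀ x ∈ B₂, T.degree x ≤ T.degree r) {LH RH : Finset V} {ρ : ℕ}
    (hρ : ∑ x ∈ B₂.erase r, (T.degree x - 1) = ρ) (hRH : RH.Nonempty)
    (h3 : ∀ x ∈ RH, T.degree r - 1 < (LH.filter (G.Adj x)).card)
    (h4 : ∀ v ∈ LH, 2 * ρ < (RH.filter (G.Adj v)).card) :
    ∃ f : W → V, St G T B₂ LH r B₂ f := by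
  have key : ∀ n : ℕ, ∀ (S : Finset W) (f : W → V), (B₂ \ S).card = n → St G T B₂ LH r S f →
      ∃ f : W → V, St G T B₂ LH r B₂ f := by
    intro n
    induction n with
    | zero =>
      intro S f hn hS
      have h1 : B₂ \ S = ∅ := Finset.card_eq_zero.mp hn
      have h2 : S = B₂ := Finset.Subset.antisymm hS.sub (Finset.sdiff_eq_empty_iff_subset.mp h1)
      exact ⟨f, h2 ▸ hS⟩
    | succ n ih =>
      intro S f hn hS
      have hne : S ≠ B₂ := by
        rintro rfl
        simp at hn
      obtain ⟨x, hx, hxS, f', hf'⟩ := step hT hC4 hA hB hmax hρ h3 h4 hS hne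
      refine ih (insert x S) f' ?_ hf'
      have h1 : B₂ \ insert x S = (B₂ \ S).erase x := by
        ext z
        simp only [Finset.mem_sdiff, Finset.mem_insert, Finset.mem_erase]
        tauto
      rw [h1, Finset.card_erase_of_mem (Finset.mem_sdiff.mpr ⟨hx, hxS⟩), hn]
      rfl
  obtain ⟨x₀, hx₀⟩ := hRH
  have hrA : r ∉ A := ((hB r).mp hr).1
  have hr2 : 2 ≤ T.degree r := ((hB r).mp hr).2
  obtain ⟨g, hginj, hgmem⟩ := exists_inj (T.neighborFinset r) (LH.filter (G.Adj x₀)) (by
    rw [SimpleGraph.card_neighborFinset_eq_degree]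
    have := h3 x₀ hx₀
    omega)
  have hgmem' : ∀ z ∈ T.neighborFinset r, g z ∈ LH ∧ G.Adj x₀ (g z) := by
    intro z hz
    exact Finset.mem_filter.mp (hgmem z hz)
  have hNr : ∀ z ∈ T.neighborFinset r, z ∈ A := by
    intro z hz
    by_contra h
    exact hrA ((hA r z (SimpleGraph.mem_neighborFinset _ _ _ |>.mp hz)).mpr h)
  obtain ⟨f', -, hf'x, hf'C, hf'⟩ := emb_star G T (f := fun _ => x₀) (g := g) (X := ∅)
    (C := T.neighborFinset r) (x := r) (x₀ := x₀)
    ⟨fun a ha => absurd ha (Finset.notMem_empty a), fun a ha => absurd ha (Finset.notMem_empty a)⟩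
    (Finset.notMem_empty r) (fun z _ => Finset.notMem_empty z)
    (fun h => T.loopless.irrefl r (SimpleGraph.mem_neighborFinset _ _ _ |>.mp h))
    (fun a ha => absurd ha (Finset.notMem_empty a)) hginj
    (fun z hz e => G.loopless.irrefl x₀ (by have := (hgmem' z hz).2; rwa [e] at this))
    (fun z _ a ha => absurd ha (Finset.notMem_empty a))
    (fun a ha => absurd ha (Finset.notMem_empty a)) (fun z hz => (hgmem' z hz).2)
    (fun z _ a ha => absurd ha (Finset.notMem_empty a))
    (fun z hz z' hz' had => (hA z z' had).mp (hNr z hz) (hNr z' hz'))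
  have hNS : NS T {r} = T.neighborFinset r := by
    rw [NS, Finset.singleton_biUnion]
  refine key _ {r} f' rfl ⟨?_, Finset.mem_singleton_self r, ?_, ?_, ?_, ?_⟩
  · rw [Finset.singleton_subset_iff]
    exact hr
  · intro y hy x _ _
    rw [Finset.mem_singleton.mp hy, SimpleGraph.dist_self]
    exact Nat.zero_le _
  · refine hf'.mono ?_
    rw [hNS]
    intro z hz
    rw [Finset.mem_union, Finset.mem_singleton] at hz
    rw [Finset.mem_insert, Finset.mem_union]
    tauto
  · intro a ha
    rw [hNS] at ha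
    rw [hf'C a ha]
    exact (hgmem' a ha).1
  · rw [hNS, SimpleGraph.card_neighborFinset_eq_degree, Finset.sum_singleton]
    omega

/-- Adding leaves. -/
theorem stage_two [Nonempty V] {A : Finset W} (hA : ∀ a b, T.Adj a b → (a ∈ A ↔ b ∉ A))
    {k : ℕ} (hW : Fintype.card W = k + 1) : ∀ n : ℕ, ∀ (X : Finset W) (f : W → V),
    (Xᶜ).card = n → A ⊆ X → (∀ w ∉ X, T.degree w = 1) → Emb G T f X →
    (∀ a ∈ A, k ≤ G.degree (f a)) → ∃ f' : W → V, Emb G T f' univ ∧ ∀ a ∈ A, f' a = f a := by
  intro n
  induction n with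
  | zero =>
    intro X f hn _ _ hf _
    have h1 : X = univ := by
      rw [← Finset.compl_eq_empty_iff]
      exact Finset.card_eq_zero.mp hn
    exact ⟨f, h1 ▸ hf, fun _ _ => rfl⟩
  | succ n ih =>
    intro X f hn hAX hdeg hf hk
    obtain ⟨w, hw⟩ : (Xᶜ).Nonempty := by
      rw [← Finset.card_pos, hn]
      exact Nat.succ_pos n
    rw [Finset.mem_compl] at hw
    have hwA : w ∉ A := fun h => hw (hAX h)
    have hd := hdeg w hw
    rw [← SimpleGraph.card_neighborFinset_eq_degree, Finset.card_eq_one] at hd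
    obtain ⟨u, hu⟩ := hd
    have hwu : T.Adj w u := by
      rw [← SimpleGraph.mem_neighborFinset, hu]
      exact Finset.mem_singleton_self u
    have huA : u ∈ A := by
      by_contra h
      exact hwA ((hA w u hwu).mpr h)
    have huX : u ∈ X := hAX huA
    have hcX : X.card ≤ k := by
      have h1 := Finset.card_compl X
      have h2 := Finset.card_le_univ X
      omega
    obtain ⟨y, hy, hyX⟩ : ∃ y, G.Adj (f u) y ∧ y ∉ X.image f := by
      by_contra hcon
      push Not at hcon
      have h1 : G.neighborFinset (f u) ⊆ (X.image f).erase (f u) := by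
        intro y hy
        rw [SimpleGraph.mem_neighborFinset] at hy
        rw [Finset.mem_erase]
        exact ⟨hy.ne', hcon y hy⟩
      have h2 := Finset.card_le_card h1
      rw [SimpleGraph.card_neighborFinset_eq_degree,
        Finset.card_erase_of_mem (Finset.mem_image_of_mem f huX)] at h2
      have h3 := hk u huA
      have h4 : (X.image f).card ≤ X.card := Finset.card_image_le
      have h5 : 0 < (X.image f).card := Finset.card_pos.mpr ⟨_, Finset.mem_image_of_mem f huX⟩
      omega
    obtain ⟨f', hf'X, -, -, hf'⟩ := emb_star G T (g := f) (C := ∅) (x₀ := y) hf hw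
      (fun z hz => absurd hz (Finset.notMem_empty z)) (Finset.notMem_empty w)
      (fun a ha e => hyX (by rw [← e]; exact Finset.mem_image_of_mem f ha))
      (fun z hz => absurd hz (Finset.notMem_empty z))
      (fun z hz => absurd hz (Finset.notMem_empty z))
      (fun z hz => absurd hz (Finset.notMem_empty z))
      (fun a _ had => by
        have h1 : a ∈ T.neighborFinset w := by
          rw [SimpleGraph.mem_neighborFinset]
          exact had.symm
        rw [hu, Finset.mem_singleton] at h1
        rw [h1]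
        exact hy)
      (fun z hz => absurd hz (Finset.notMem_empty z))
      (fun z hz => absurd hz (Finset.notMem_empty z))
      (fun z hz => absurd hz (Finset.notMem_empty z))
    rw [Finset.union_empty] at hf'
    obtain ⟨f'', h1, h2⟩ := ih (insert w X) f' (by
        rw [Finset.compl_insert, Finset.card_erase_of_mem (Finset.mem_compl.mpr hw), hn]
        rfl) (hAX.trans (Finset.subset_insert w X))
      (fun w' hw' => hdeg w' fun h => hw' (Finset.mem_insert_of_mem h)) hf'
      (fun a ha => by rw [hf'X a (hAX ha)]; exact hk a ha)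
    exact ⟨f'', h1, fun a ha => by rw [h2 a ha, hf'X a (hAX ha)]⟩

/-- The numerical inequality for the core. -/
theorem num_core (n l k α c₁ ρ : ℤ) (hα : α = 1 + c₁ + ρ) (hc : 0 ≤ c₁) (hρ : 0 ≤ ρ)
    (hl : 1 ≤ l) (h1 : α * n ≤ (k + 1) * l) (h2 : 2 * α ≤ k + 1) :
    2 * ρ * l + c₁ * n < k * l := by
  have hα0 : 0 < α := by linarith
  have e1 : c₁ * (α * n) ≤ c₁ * ((k + 1) * l) := mul_le_mul_of_nonneg_left h1 hc
  have e2 : (ρ + 1) * (2 * α) ≤ (ρ + 1) * (k + 1) := mul_le_mul_of_nonneg_left h2 (by linarith)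
  have e3 : α ≤ (ρ + 1) * k - c₁ - 2 * ρ * α := by nlinarith
  have e4 : α * l ≤ ((ρ + 1) * k - c₁ - 2 * ρ * α) * l :=
    mul_le_mul_of_nonneg_right e3 (by linarith)
  have e5 : 0 < α * l := by positivity
  have e6 : α * (2 * ρ * l + c₁ * n) < α * (k * l) := by
    have e7 : α * (k * l) = (1 + c₁ + ρ) * k * l := by rw [hα]; ring
    nlinarith
  exact lt_of_mul_lt_mul_left e6 hα0.le

theorem main [Nonempty V] (hT : T.IsTree) {k : ℕ} (hW : Fintype.card W = k + 1)
    (hC4 : ∀ p q : V, p ≠ q → (univ.filter fun z => G.Adj p z ∧ G.Adj q z).card ≤ 1)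
    {A : Finset W} (hA : ∀ a b, T.Adj a b → (a ∈ A ↔ b ∉ A)) (hA2 : 2 * A.card ≤ k + 1)
    (hAL : A.card * Fintype.card V ≤
      (k + 1) * (univ.filter fun v : V => k ≤ G.degree v).card) :
    ∃ f : W → V, Function.Injective f ∧ (∀ a b, T.Adj a b → G.Adj (f a) (f b)) ∧
      ∀ a ∈ A, k ≤ G.degree (f a) := by
  have hV : 1 ≤ Fintype.card V := Fintype.card_pos
  rcases Nat.eq_zero_or_pos k with rfl | hk
  · -- one vertex
    have h1 : Subsingleton W := Fintype.card_le_one_iff_subsingleton.mp (by omega)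
    refine ⟨fun _ => Classical.arbitrary V, Function.injective_of_subsingleton _, ?_, ?_⟩
    · intro a b hab
      exact absurd (Subsingleton.elim a b) hab.ne
    · intro a _
      exact Nat.zero_le _
  · have hnt : Nontrivial W := Fintype.one_lt_card_iff_nontrivial.mp (by omega)
    have hdeg1 : ∀ w : W, 1 ≤ T.degree w := fun w =>
      hT.connected.preconnected.degree_pos_of_nontrivial w
    set L : Finset V := univ.filter fun v : V => k ≤ G.degree v with hL
    set B₂ : Finset W := univ.filter fun x => x ∉ A ∧ 2 ≤ T.degree x with hB₂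
    have hB : ∀ x, x ∈ B₂ ↔ x ∉ A ∧ 2 ≤ T.degree x := by
      intro x
      rw [hB₂, Finset.mem_filter]
      simp
    -- the number of elements of `A`
    have hcardA : A.card = 1 + ∑ x ∈ B₂, (T.degree x - 1) := by
      have h1 := sum_degree hT A hA
      have h2 : ∑ x ∈ univ.filter (fun x => x ∉ A), T.degree x =
          ∑ x ∈ univ.filter (fun x => x ∉ A), (T.degree x - 1) +
            (univ.filter (fun x => x ∉ A)).card := by
        rw [Finset.card_eq_sum_ones, ← Finset.sum_add_distrib]
        refine Finset.sum_congr rfl fun x _ => ?_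
        have := hdeg1 x
        omega
      have h3 : ∑ x ∈ B₂, (T.degree x - 1) =
          ∑ x ∈ univ.filter (fun x => x ∉ A), (T.degree x - 1) := by
        refine Finset.sum_subset ?_ ?_
        · intro x hx
          rw [Finset.mem_filter]
          exact ⟨Finset.mem_univ _, ((hB x).mp hx).1⟩
        · intro x hx hx'
          rw [hB] at hx'
          have h4 := (Finset.mem_filter.mp hx).2
          have h5 := hdeg1 x
          by_contra h6
          exact hx' ⟨h4, by omega⟩
      have h4 : (univ.filter (fun x => x ∉ A)).card + A.card = Fintype.card W := by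
        have h5 : univ.filter (fun x => x ∉ A) = Aᶜ := by
          ext x
          simp
        rw [h5, Finset.card_compl]
        have := Finset.card_le_univ A
        omega
      omega
    have hL1 : 1 ≤ L.card := by
      by_contra h
      have h0 : L.card = 0 := by omega
      rw [h0, mul_zero] at hAL
      have h2 : 1 * 1 ≤ A.card * Fintype.card V := Nat.mul_le_mul (by omega) hV
      omega
    have hLmem : ∀ v ∈ L, k ≤ G.degree v := fun v hv => (Finset.mem_filter.mp hv).2
    have hfin : ∃ (X : Finset W) (f : W → V), A ⊆ X ∧ (∀ w ∉ X, T.degree w = 1) ∧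
        Emb G T f X ∧ ∀ a ∈ A, k ≤ G.degree (f a) := by
      rcases Finset.eq_empty_or_nonempty B₂ with h0 | hne
      · -- a star
        rw [h0, Finset.sum_empty] at hcardA
        obtain ⟨u, hu⟩ := Finset.card_eq_one.mp (by omega : A.card = 1)
        obtain ⟨v, hv⟩ := Finset.card_pos.mp (by omega : 0 < L.card)
        refine ⟨A, fun _ => v, Finset.Subset.refl _, ?_, ⟨?_, ?_⟩, fun _ _ => hLmem v hv⟩
        · intro w hw
          have h1 : w ∉ B₂ := by rw [h0]; exact Finset.notMem_empty w
          rw [hB] at h1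
          have h2 := hdeg1 w
          by_contra h3
          exact h1 ⟨hw, by omega⟩
        · intro a ha b hb _
          rw [hu, Finset.mem_singleton] at ha hb
          rw [ha, hb]
        · intro a ha b hb hab
          exact absurd hb ((hA a b hab).mp ha)
      · obtain ⟨r, hr, hmax⟩ := Finset.exists_max_image B₂ (fun x => T.degree x) hne
        set ρ : ℕ := ∑ x ∈ B₂.erase r, (T.degree x - 1) with hρ
        have hsum : ∑ x ∈ B₂, (T.degree x - 1) = (T.degree r - 1) + ρ :=
          (Finset.add_sum_erase _ _ hr).symm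
        have hcore : 2 * ρ * L.card + (T.degree r - 1) * Fintype.card V <
            ∑ v ∈ L, G.degree v := by
          have h1 := num_core (Fintype.card V : ℤ) (L.card : ℤ) (k : ℤ) (A.card : ℤ)
            ((T.degree r - 1 : ℕ) : ℤ) (ρ : ℤ) (by rw [hcardA, hsum]; push_cast; ring)
            (by positivity) (by positivity) (by exact_mod_cast hL1) (by exact_mod_cast hAL)
            (by exact_mod_cast hA2)
          have h2 : 2 * ρ * L.card + (T.degree r - 1) * Fintype.card V < k * L.card := by
            exact_mod_cast h1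
          refine lt_of_lt_of_le h2 ?_
          rw [mul_comm, ← smul_eq_mul, ← Finset.sum_const]
          exact Finset.sum_le_sum hLmem
        obtain ⟨LH, RH, hLH, hRH, h4, h3⟩ := exists_core G L (2 * ρ) (T.degree r - 1) hcore
        obtain ⟨f, hf⟩ := stage_one hT hC4 hA hB hr hmax rfl hRH h3 h4
        have hNSA : NS T B₂ = A := by
          refine Finset.eq_of_subset_of_card_le ?_ ?_
          · intro a ha
            obtain ⟨y, hy, had⟩ := mem_NS.mp ha
            by_contra h
            exact ((hB y).mp hy).1 ((hA y a had).mpr h)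
          · rw [hf.card, hcardA]
        have hemb := hf.emb
        have hleft := hf.left
        rw [hNSA] at hemb hleft
        refine ⟨B₂ ∪ A, f, Finset.subset_union_right, ?_, hemb,
          fun a ha => hLmem _ (hLH (hleft a ha))⟩
        intro w hw
        rw [Finset.mem_union, not_or, hB] at hw
        have h2 := hdeg1 w
        by_contra h3
        exact hw.1 ⟨hw.2, by omega⟩
    obtain ⟨X, f, hAX, hdegX, hemb, hfA⟩ := hfin
    obtain ⟨f', hf', hf'A⟩ := stage_two (G := G) (T := T) hA hW _ X f rfl hAX hdegX hemb hfA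
    refine ⟨f', fun a b hab => hf'.inj a (Finset.mem_univ a) b (Finset.mem_univ b) hab,
      fun a b hab => hf'.hom a (Finset.mem_univ a) b (Finset.mem_univ b) hab, ?_⟩
    intro a ha
    rw [hf'A a ha]
    exact hfA a ha

end

end Pool.Agent.LKS
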