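import Pool.Agent.LKS.Regimes

/-!
# The embedding rule with a potential function (helper29)
-/

set_option autoImplicit false
set_option linter.unusedSectionVars false

namespace Pool.Agent.LKS

open Finset
open scoped Classical

section

variable {V W : Type*} [Fintype V] [Fintype W] (G : SimpleGraph V) (T : SimpleGraph W)

/-- The number of used neighbours of `f a` which are not images of neighbours of `a`. -/
noncomputable def exn (f : W → V) (X : Finset W) (a : W) : ℕ :=
  (X.filter fun w => ¬T.Adj a w ∧ G.Adj (f a) (f w)).card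

/-- The potential. -/
noncomputable def Phi (S : Finset W) (f : W → V) : ℝ :=
  ∑ a ∈ NS T S, (2 : ℝ) ^ exn G T f (S ∪ NS T S) a

/-- The invariant. -/
def InvP (q E₀ : ℝ) (S : Finset W) (f : W → V) : Prop :=
  Phi G T S f ≤ q ^ (S ∪ NS T S).card * ((S ∪ NS T S).card * E₀)

variable {G T}

theorem NS_insert {S : Finset W} {x u : W} (hu : u ∈ NS T S) :
    NS T (insert x S) = (T.neighborFinset x).erase u ∪ NS T S := by
  ext z
  rw [Finset.mem_union, Finset.mem_erase, SimpleGraph.mem_neighborFinset, mem_NS, mem_NS]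
  constructor
  · rintro ⟨y₀, hy₀, had⟩
    rcases Finset.mem_insert.mp hy₀ with rfl | hy₀
    · by_cases hzu : z = u
      · right
        rw [hzu]
        exact mem_NS.mp hu
      · exact Or.inl ⟨hzu, had⟩
    · exact Or.inr ⟨y₀, hy₀, had⟩
  · rintro (⟨-, had⟩ | ⟨y₀, hy₀, had⟩)
    · exact ⟨x, Finset.mem_insert_self _ _, had⟩
    · exact ⟨y₀, Finset.mem_insert_of_mem hy₀, had⟩

theorem card_filter_image_le {C : Finset W} {Y : Finset V} {g : W → V} (hg : Set.InjOn g C)
    (hgY : ∀ z ∈ C, g z ∈ Y) (P : V → Prop) :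
    (C.filter fun z => P (g z)).card ≤ (Y.filter P).card := by
  refine Finset.card_le_card_of_injOn g ?_ ?_
  · intro z hz
    rw [Finset.mem_coe, Finset.mem_filter] at hz
    rw [Finset.mem_coe, Finset.mem_filter]
    exact ⟨hgY z hz.1, hz.2⟩
  · intro a ha b hb hab
    rw [Finset.mem_coe, Finset.mem_filter] at ha hb
    exact hg ha.1 hb.1 hab

/-- The number of elements of `Z` outside of `U`. -/
theorem card_le_outside (Z U : Finset V) (P : V → Prop) (hZ : ∀ z ∈ Z, P z) :
    Z.card ≤ (Z \ U).card + (U.filter P).card := by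
  refine le_trans (Finset.card_le_card ?_) (Finset.card_union_le _ _)
  intro z hz
  rw [Finset.mem_union, Finset.mem_sdiff, Finset.mem_filter]
  by_cases hzU : z ∈ U
  · exact Or.inr ⟨hzU, hZ z hz⟩
  · exact Or.inl ⟨hz, hzU⟩

/-- The rule with the potential function. -/
theorem rule_pot [Nonempty V] {A B₂ : Finset W} (hA : ∀ a b, T.Adj a b → (a ∈ A ↔ b ∉ A))
    (hB : ∀ x, x ∈ B₂ ↔ x ∉ A ∧ 2 ≤ T.degree x) {r : W}
    (hmax : ∀ x ∈ B₂, T.degree x ≤ T.degree r) {LH RH : Finset V} {τ h D Q N Bl a' : ℕ}
    (hC : ∀ p q : V, p ≠ q → (univ.filter fun z => G.Adj p z ∧ G.Adj q z).card ≤ τ)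
    (hh : 0 < h) (hN : B₂.card + A.card ≤ N)
    (p1 : τ * N < (2 * h + 1) * (Bl + 1)) (p2 : τ * N < (D + 1) * (h + 1))
    (p3 : (1 + τ / h : ℝ) ^ N * (N * (2 : ℝ) ^ (D + τ)) < 2 ^ (Q + 1))
    (p4 : h + Q + B₂.card + Bl ≤ a' + 1)
    (h4 : ∀ v ∈ LH, a' < (RH.filter (G.Adj v)).card)
    (h3 : ∀ x ∈ RH, T.degree r - 1 + 4 * h < (LH.filter (G.Adj x)).card) :
    Rule G T B₂ LH r (InvP G T (1 + τ / h) (2 ^ (D + τ))) := by
  intro S f x u hS hI hx hxS hxu hu hch
  have hcard := st_card hA hB hS hx hxS hch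
  have hNA := st_NA hA hB hS
  have hxA : x ∉ A := ((hB x).mp hx).1
  have huA : u ∈ A := hNA u hu
  set X := S ∪ NS T S with hX
  set C := (T.neighborFinset x).erase u with hCdef
  have hmemC : ∀ z, z ∈ C ↔ z ≠ u ∧ T.Adj x z := by
    intro z
    rw [hCdef, Finset.mem_erase, SimpleGraph.mem_neighborFinset]
  have hCA : ∀ z ∈ C, z ∈ A := by
    intro z hz
    by_contra h
    exact hxA ((hA x z ((hmemC z).mp hz).2).mpr h)
  have hCX : ∀ z ∈ C, z ∉ X := fun z hz => hch z ((hmemC z).mp hz).2 ((hmemC z).mp hz).1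
  have hCcard : C.card = T.degree x - 1 := by
    rw [hCdef, Finset.card_erase_of_mem, SimpleGraph.card_neighborFinset_eq_degree]
    rw [SimpleGraph.mem_neighborFinset]
    exact hxu
  have hCc : C.card ≤ T.degree r - 1 := by
    have := hmax x hx
    omega
  have huX : u ∈ X := Finset.mem_union_right _ hu
  have hinj := hS.emb.inj
  have hhom := hS.emb.hom
  set U₀ := X.image f with hU₀
  have hUc : U₀.card = X.card := Finset.card_image_of_injOn (fun a ha b hb => hinj a ha b hb)
  have hXN : X.card ≤ N := by omega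
  set v := f u with hv
  have hvU : v ∈ U₀ := Finset.mem_image_of_mem f huX
  -- the potential is bounded
  set q : ℝ := 1 + τ / h with hq
  set E₀ : ℝ := 2 ^ (D + τ) with hE₀
  have hq1 : (1 : ℝ) ≤ q := by
    have : (0 : ℝ) ≤ (τ : ℝ) / h := by positivity
    rw [hq]
    linarith
  have hE0 : (0 : ℝ) < E₀ := by positivity
  have hPhi : Phi G T S f ≤ q ^ X.card * (X.card * E₀) := hI
  have hPhi0 : 0 ≤ Phi G T S f := by
    unfold Phi
    positivity
  have hPhiN : Phi G T S f < 2 ^ (Q + 1) := by
    refine lt_of_le_of_lt (hPhi.trans ?_) p3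
    have h1 : q ^ X.card ≤ q ^ N := pow_le_pow_right₀ hq1 hXN
    have h2 : ((X.card : ℕ) : ℝ) ≤ N := by exact_mod_cast hXN
    have h3 : (X.card : ℝ) * E₀ ≤ N * E₀ := mul_le_mul_of_nonneg_right h2 hE0.le
    exact mul_le_mul h1 h3 (by positivity) (by positivity)
  have heu : exn G T f X u ≤ Q := by
    have h1 : (2 : ℝ) ^ exn G T f X u ≤ Phi G T S f := by
      unfold Phi
      exact Finset.single_le_sum (f := fun a => (2 : ℝ) ^ exn G T f (S ∪ NS T S) a)
        (fun _ _ => by positivity) hu
    have h2 : (2 : ℝ) ^ exn G T f X u < 2 ^ (Q + 1) := lt_of_le_of_lt h1 hPhiN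
    have h3 := (pow_lt_pow_iff_right₀ (by norm_num : (1 : ℝ) < 2)).mp h2
    omega
  -- the number of used neighbours of `v`
  have hSB : S.card + 1 ≤ B₂.card := by
    rw [← Finset.card_insert_of_notMem hxS]
    refine Finset.card_le_card ?_
    intro z hz
    rcases Finset.mem_insert.mp hz with rfl | hz
    · exact hx
    · exact hS.sub hz
  have hused : (U₀.filter (G.Adj v)).card ≤ Q + S.card := by
    have h1 : U₀.filter (G.Adj v) ⊆
        ((X.filter fun w => ¬T.Adj u w ∧ G.Adj (f u) (f w)) ∪ S).image f := by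
      intro z hz
      rw [Finset.mem_filter] at hz
      obtain ⟨w, hw, rfl⟩ := Finset.mem_image.mp hz.1
      refine Finset.mem_image_of_mem f ?_
      rw [Finset.mem_union, Finset.mem_filter]
      by_cases huw : T.Adj u w
      · right
        rcases Finset.mem_union.mp hw with h | h
        · exact h
        · exact absurd (hNA w h) ((hA u w huw).mp huA)
      · exact Or.inl ⟨hw, huw, hz.2⟩
    refine (Finset.card_le_card h1).trans (Finset.card_image_le.trans ?_)
    refine (Finset.card_union_le _ _).trans ?_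
    exact Nat.add_le_add_right heu _
  -- the candidates for the new centre
  set Z₁ := (RH.filter (G.Adj v)) \ U₀ with hZ₁
  have hZ₁card : a' + 1 ≤ Z₁.card + (Q + S.card) := by
    have h1 := card_le_outside (RH.filter (G.Adj v)) U₀ (G.Adj v)
      (fun z hz => (Finset.mem_filter.mp hz).2)
    rw [← hZ₁] at h1
    have h2 := h4 v (hS.left u hu)
    omega
  have hZ₁adj : ∀ z ∈ Z₁, G.Adj v z := fun z hz =>
    (Finset.mem_filter.mp (Finset.mem_sdiff.mp hz).1).2
  set bad₁ := Z₁.filter fun z => 2 * h + 1 ≤ ((U₀.erase v).filter (G.Adj z)).card with hbad₁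
  have hbad₁c : bad₁.card ≤ Bl := by
    have h1 := card_many hC hZ₁adj (U := U₀.erase v) (Finset.notMem_erase v U₀) (2 * h + 1)
    rw [← hbad₁] at h1
    have h2 : (U₀.erase v).card ≤ N := (Finset.card_erase_le).trans (by omega)
    have h3 : τ * (U₀.erase v).card ≤ τ * N := Nat.mul_le_mul_left _ h2
    by_contra hcon
    push Not at hcon
    have h4 : (2 * h + 1) * (Bl + 1) ≤ (2 * h + 1) * bad₁.card := Nat.mul_le_mul_left _ hcon
    omega
  set Z₂ := Z₁ \ bad₁ with hZ₂
  have hZ₂card : h ≤ Z₂.card := by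
    have := Finset.le_card_sdiff bad₁ Z₁
    rw [← hZ₂] at this
    omega
  -- the cost
  set I := (NS T S).erase u with hIdef
  have hIne : ∀ i ∈ I, f i ≠ v := by
    intro i hi e
    rw [hIdef, Finset.mem_erase] at hi
    exact hi.1 (hinj i (Finset.mem_union_right _ hi.2) u huX e)
  have hsum := sum_cod hC (x := v) (Z := Z₂)
    (fun z hz => hZ₁adj z (Finset.mem_sdiff.mp hz).1) (I := I) (pt := f) hIne
    (fun i => (2 : ℝ) ^ exn G T f X i) (fun _ _ => by positivity)
  have hIle : ∑ i ∈ I, (2 : ℝ) ^ exn G T f X i ≤ Phi G T S f := by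
    unfold Phi
    exact Finset.sum_le_sum_of_subset_of_nonneg (Finset.erase_subset _ _)
      (fun _ _ _ => by positivity)
  obtain ⟨x₀, hx₀, hcost⟩ := exists_cheap hh hZ₂card
    (by positivity : (0 : ℝ) ≤ τ * ∑ i ∈ I, (2 : ℝ) ^ exn G T f X i) hsum
  have hx₀1 : x₀ ∈ Z₁ := (Finset.mem_sdiff.mp hx₀).1
  have hx₀R : x₀ ∈ RH := (Finset.mem_filter.mp (Finset.mem_sdiff.mp hx₀1).1).1
  have hx₀v : G.Adj v x₀ := hZ₁adj x₀ hx₀1
  have hx₀U : x₀ ∉ U₀ := (Finset.mem_sdiff.mp hx₀1).2
  have hx₀b : ((U₀.erase v).filter (G.Adj x₀)).card ≤ 2 * h := by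
    by_contra hcon
    push Not at hcon
    exact (Finset.mem_sdiff.mp hx₀).2 (Finset.mem_filter.mpr ⟨hx₀1, by omega⟩)
  have hx₀b' : (U₀.filter (G.Adj x₀)).card ≤ 2 * h + 1 := by
    have e5 : U₀.filter (G.Adj x₀) ⊆ insert v ((U₀.erase v).filter (G.Adj x₀)) := by
      intro z hz
      rw [Finset.mem_insert, Finset.mem_filter, Finset.mem_erase]
      rw [Finset.mem_filter] at hz
      by_cases hzv : z = v
      · exact Or.inl hzv
      · exact Or.inr ⟨⟨hzv, hz.1⟩, hz.2⟩
    have := (Finset.card_le_card e5).trans (Finset.card_insert_le _ _)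
    omega
  -- the candidates for the children
  set Z₃ := (LH.filter (G.Adj x₀)) \ U₀ with hZ₃
  have hZ₃adj : ∀ z ∈ Z₃, G.Adj x₀ z := fun z hz =>
    (Finset.mem_filter.mp (Finset.mem_sdiff.mp hz).1).2
  have hZ₃card : T.degree r - 1 + 2 * h ≤ Z₃.card := by
    have h1 := card_le_outside (LH.filter (G.Adj x₀)) U₀ (G.Adj x₀)
      (fun z hz => (Finset.mem_filter.mp hz).2)
    rw [← hZ₃] at h1
    have h2 := h3 x₀ hx₀R
    omega
  set bad₃ := Z₃.filter fun z => D + 1 ≤ (U₀.filter (G.Adj z)).card with hbad₃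
  have hbad₃c : bad₃.card ≤ h := by
    have h1 := card_many hC hZ₃adj (U := U₀) hx₀U (D + 1)
    rw [← hbad₃] at h1
    have h3 : τ * U₀.card ≤ τ * N := Nat.mul_le_mul_left _ (by omega)
    by_contra hcon
    push Not at hcon
    have h4 : (D + 1) * (h + 1) ≤ (D + 1) * bad₃.card := Nat.mul_le_mul_left _ hcon
    omega
  set Z₄ := Z₃ \ bad₃ with hZ₄
  have hZ₄card : C.card + h ≤ Z₄.card := by
    have := Finset.le_card_sdiff bad₃ Z₃
    rw [← hZ₄] at this
    omega
  have hZ₄adj : ∀ z ∈ Z₄, G.Adj x₀ z := fun z hz => hZ₃adj z (Finset.mem_sdiff.mp hz).1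
  -- the choice of the children
  set ex₁ : W → ℕ := fun a => exn G T f X a + if a ≠ u ∧ G.Adj (f a) x₀ then 1 else 0 with hex₁
  obtain ⟨Y, hYZ, hYc, hpot⟩ := exists_children hC hh hZ₄adj (I := NS T S) (pt := f)
    (fun i hi e => hx₀U (by
      rw [← e]
      exact Finset.mem_image_of_mem f (Finset.mem_union_right _ hi))) ex₁ D C.card hZ₄card
  obtain ⟨g, hginj, hgY⟩ := exists_inj C Y hYc.ge
  have hgZ : ∀ z ∈ C, g z ∈ Z₄ := fun z hz => hYZ (hgY z hz)
  have hgZ₃ : ∀ z ∈ C, g z ∈ Z₃ := fun z hz => (Finset.mem_sdiff.mp (hgZ z hz)).1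
  refine ⟨x₀, g, hx₀v, hx₀U, hginj, ?_, ?_⟩
  · intro z hz
    have h1 := hgZ₃ z hz
    rw [hZ₃, Finset.mem_sdiff, Finset.mem_filter] at h1
    exact ⟨h1.1.1, h1.1.2, h1.2⟩
  · intro f' hf'X hf'x hf'C
    -- the new potential
    have hNS := NS_insert (T := T) (S := S) (x := x) hu
    have hdisj : Disjoint C (NS T S) := by
      rw [Finset.disjoint_left]
      intro z hz hz'
      exact hCX z hz (Finset.mem_union_right _ hz')
    have hX'sub : insert x S ∪ NS T (insert x S) ⊆ insert x (X ∪ C) := by
      rw [hNS]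
      intro z hz
      rw [Finset.mem_union, Finset.mem_insert, Finset.mem_union] at hz
      rw [Finset.mem_insert, Finset.mem_union, hX, Finset.mem_union]
      tauto
    have hxX : x ∉ X := by
      intro h
      rcases Finset.mem_union.mp h with h | h
      · exact hxS h
      · exact hxA (hNA x h)
    have hX'card : X.card + 1 + C.card ≤ (insert x S ∪ NS T (insert x S)).card := by
      have h1 : insert x (X ∪ C) ⊆ insert x S ∪ NS T (insert x S) := by
        rw [hNS]
        intro z hz
        rw [Finset.mem_insert, Finset.mem_union, hX, Finset.mem_union] at hz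
        rw [Finset.mem_union, Finset.mem_insert, Finset.mem_union]
        tauto
      have h2 : Disjoint X C := by
        rw [Finset.disjoint_right]
        exact hCX
      have h3 : x ∉ X ∪ C := by
        rw [Finset.mem_union, not_or]
        exact ⟨hxX, fun h => T.loopless.irrefl x ((hmemC x).mp h).2⟩
      have h4 := Finset.card_le_card h1
      have h5 : (insert x (X ∪ C)).card = (X ∪ C).card + 1 := Finset.card_insert_of_notMem h3
      have h6 : (X ∪ C).card = X.card + C.card := Finset.card_union_of_disjoint h2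
      omega
    -- old vertices
    have hold : ∀ a ∈ NS T S, exn G T f' (insert x S ∪ NS T (insert x S)) a ≤
        ex₁ a + (Y.filter (G.Adj (f a))).card := by
      intro a ha
      have haX : a ∈ X := Finset.mem_union_right _ ha
      have hfa : f' a = f a := hf'X a haX
      have hsub : ((insert x S ∪ NS T (insert x S)).filter fun w =>
          ¬T.Adj a w ∧ G.Adj (f' a) (f' w)) ⊆
          ((X.filter fun w => ¬T.Adj a w ∧ G.Adj (f a) (f w)) ∪
            (if a ≠ u ∧ G.Adj (f a) x₀ then {x} else ∅)) ∪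
            (C.filter fun z => G.Adj (f a) (g z)) := by
        intro w hw
        rw [Finset.mem_filter, hfa] at hw
        obtain ⟨hw1, hw2, hw3⟩ := hw
        rw [Finset.mem_union, Finset.mem_union]
        rcases Finset.mem_insert.mp (hX'sub hw1) with rfl | hw1
        · left
          right
          rw [hf'x] at hw3
          have hau : a ≠ u := fun e => hw2 (by rw [e]; exact hxu.symm)
          rw [if_pos ⟨hau, hw3⟩]
          exact Finset.mem_singleton_self _
        · rcases Finset.mem_union.mp hw1 with hw1 | hw1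
          · left
            left
            rw [hf'X w hw1] at hw3
            exact Finset.mem_filter.mpr ⟨hw1, hw2, hw3⟩
          · right
            rw [hf'C w hw1] at hw3
            exact Finset.mem_filter.mpr ⟨hw1, hw3⟩
      have h1 := Finset.card_le_card hsub
      have h2 := Finset.card_union_le ((X.filter fun w => ¬T.Adj a w ∧ G.Adj (f a) (f w)) ∪
            (if a ≠ u ∧ G.Adj (f a) x₀ then {x} else ∅)) (C.filter fun z => G.Adj (f a) (g z))
      have h3 := Finset.card_union_le (X.filter fun w => ¬T.Adj a w ∧ G.Adj (f a) (f w))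
            (if a ≠ u ∧ G.Adj (f a) x₀ then {x} else ∅)
      have h4 := card_filter_image_le hginj hgY (G.Adj (f a))
      have h5 : (if a ≠ u ∧ G.Adj (f a) x₀ then ({x} : Finset W) else ∅).card =
          if a ≠ u ∧ G.Adj (f a) x₀ then 1 else 0 := by
        split_ifs <;> simp
      have h6 : exn G T f X a = (X.filter fun w => ¬T.Adj a w ∧ G.Adj (f a) (f w)).card := rfl
      have h7 : exn G T f' (insert x S ∪ NS T (insert x S)) a =
          ((insert x S ∪ NS T (insert x S)).filter fun w =>
          ¬T.Adj a w ∧ G.Adj (f' a) (f' w)).card := rfl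
      rw [hex₁, h7]
      simp only
      rw [h6]
      omega
    -- new vertices
    have hnew : ∀ a ∈ C, exn G T f' (insert x S ∪ NS T (insert x S)) a ≤
        D + (Y.filter (G.Adj (g a))).card := by
      intro a ha
      have hfa : f' a = g a := hf'C a ha
      have hsub : ((insert x S ∪ NS T (insert x S)).filter fun w =>
          ¬T.Adj a w ∧ G.Adj (f' a) (f' w)) ⊆
          (X.filter fun w => G.Adj (g a) (f w)) ∪ (C.filter fun z => G.Adj (g a) (g z)) := by
        intro w hw
        rw [Finset.mem_filter, hfa] at hw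
        obtain ⟨hw1, hw2, hw3⟩ := hw
        rw [Finset.mem_union]
        rcases Finset.mem_insert.mp (hX'sub hw1) with rfl | hw1
        · exact absurd ((hmemC a).mp ha).2.symm hw2
        · rcases Finset.mem_union.mp hw1 with hw1 | hw1
          · left
            rw [hf'X w hw1] at hw3
            exact Finset.mem_filter.mpr ⟨hw1, hw3⟩
          · right
            rw [hf'C w hw1] at hw3
            exact Finset.mem_filter.mpr ⟨hw1, hw3⟩
      have h1 := Finset.card_le_card hsub
      have h2 := Finset.card_union_le (X.filter fun w => G.Adj (g a) (f w))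
        (C.filter fun z => G.Adj (g a) (g z))
      have h3 := card_filter_image_le hginj hgY (G.Adj (g a))
      have h4 := card_filter_image_le (C := X) (Y := U₀) (g := f)
        (fun a ha b hb => hinj a ha b hb) (fun w hw => Finset.mem_image_of_mem f hw)
        (G.Adj (g a))
      have h5 : (U₀.filter (G.Adj (g a))).card ≤ D := by
        by_contra hcon
        push Not at hcon
        exact (Finset.mem_sdiff.mp (hgZ a ha)).2
          (Finset.mem_filter.mpr ⟨hgZ₃ a ha, by omega⟩)
      have h7 : exn G T f' (insert x S ∪ NS T (insert x S)) a =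
          ((insert x S ∪ NS T (insert x S)).filter fun w =>
          ¬T.Adj a w ∧ G.Adj (f' a) (f' w)).card := rfl
      rw [h7]
      omega
    have hPhi' : Phi G T (insert x S) f' ≤ pot G (NS T S) f ex₁ D Y := by
      unfold Phi pot
      rw [show ∑ a ∈ NS T (insert x S),
        (2 : ℝ) ^ exn G T f' (insert x S ∪ NS T (insert x S)) a =
        ∑ a ∈ C, (2 : ℝ) ^ exn G T f' (insert x S ∪ NS T (insert x S)) a +
        ∑ a ∈ NS T S, (2 : ℝ) ^ exn G T f' (insert x S ∪ NS T (insert x S)) a by
          rw [← Finset.sum_union hdisj, ← hNS]]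
      rw [add_comm]
      refine add_le_add ?_ ?_
      · exact Finset.sum_le_sum fun a ha => pow_le_pow_right₀ one_le_two (hold a ha)
      · calc ∑ a ∈ C, (2 : ℝ) ^ exn G T f' (insert x S ∪ NS T (insert x S)) a
            ≤ ∑ a ∈ C, (2 : ℝ) ^ (D + (Y.filter (G.Adj (g a))).card) :=
              Finset.sum_le_sum fun a ha => pow_le_pow_right₀ one_le_two (hnew a ha)
          _ = ∑ y ∈ C.image g, (2 : ℝ) ^ (D + (Y.filter (G.Adj y)).card) :=
              (Finset.sum_image (f := fun y => (2 : ℝ) ^ (D + (Y.filter (G.Adj y)).card))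
                hginj).symm
          _ ≤ ∑ y ∈ Y, (2 : ℝ) ^ (D + (Y.filter (G.Adj y)).card) := by
              refine Finset.sum_le_sum_of_subset_of_nonneg ?_ (fun _ _ _ => by positivity)
              intro y hy
              obtain ⟨z, hz, rfl⟩ := Finset.mem_image.mp hy
              exact hgY z hz
    -- the potential after the choice of the centre
    have hF0 : ∑ a ∈ NS T S, (2 : ℝ) ^ ex₁ a ≤ q * Phi G T S f := by
      have hpow : ∀ (a : ℕ) (P : Prop) [Decidable P], (2 : ℝ) ^ (a + if P then 1 else 0) =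
          2 ^ a + if P then 2 ^ a else 0 := by
        intro a P _
        split_ifs
        · rw [pow_succ]
          ring
        · rw [add_zero, add_zero]
      have e1 : ∑ a ∈ NS T S, (2 : ℝ) ^ ex₁ a = Phi G T S f +
          ∑ a ∈ I.filter (fun i => G.Adj (f i) x₀), (2 : ℝ) ^ exn G T f X a := by
        rw [hex₁]
        simp only [hpow]
        rw [Finset.sum_add_distrib, ← Finset.sum_filter]
        congr 1
        refine Finset.sum_congr ?_ (fun _ _ => rfl)
        ext a
        rw [Finset.mem_filter, Finset.mem_filter, hIdef, Finset.mem_erase]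
        tauto
      rw [e1]
      have e2 : (τ : ℝ) * (∑ i ∈ I, (2 : ℝ) ^ exn G T f X i) / h ≤ τ / h * Phi G T S f := by
        rw [mul_div_right_comm]
        exact mul_le_mul_of_nonneg_left hIle (by positivity)
      have e3 := hcost.trans e2
      rw [hq]
      linarith
    -- conclusion
    have hX'c : (insert x S ∪ NS T (insert x S)).card = X.card + 1 + C.card := by
      refine le_antisymm ?_ hX'card
      refine (Finset.card_le_card hX'sub).trans ((Finset.card_insert_le _ _).trans ?_)
      have := Finset.card_union_le X C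
      omega
    unfold InvP
    rw [hX'c]
    have k1 : (0 : ℝ) ≤ q ^ C.card := by positivity
    have k2 : (1 : ℝ) ≤ q ^ (X.card + 1) := one_le_pow₀ hq1
    calc Phi G T (insert x S) f'
        ≤ q ^ C.card * (∑ a ∈ NS T S, (2 : ℝ) ^ ex₁ a + C.card * E₀) := hPhi'.trans hpot
      _ ≤ q ^ C.card * (q * (q ^ X.card * (X.card * E₀)) + q ^ (X.card + 1) * (C.card * E₀)) := by
          refine mul_le_mul_of_nonneg_left (add_le_add ?_ ?_) k1
          · exact hF0.trans (mul_le_mul_of_nonneg_left hPhi (by linarith))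
          · calc (C.card : ℝ) * E₀ = 1 * (C.card * E₀) := (one_mul _).symm
              _ ≤ _ := mul_le_mul_of_nonneg_right k2 (by positivity)
      _ = q ^ (X.card + 1 + C.card) * ((X.card + C.card : ℝ) * E₀) := by
          rw [pow_add, pow_add, pow_one]
          ring
      _ ≤ q ^ (X.card + 1 + C.card) * (((X.card + 1 + C.card : ℕ) : ℝ) * E₀) := by
          refine mul_le_mul_of_nonneg_left (mul_le_mul_of_nonneg_right ?_ hE0.le) (by positivity)
          push_cast
          linarith

/-- The initial value of the potential. -/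
theorem inv_start {τ h D : ℕ}
    (hC : ∀ p q : V, p ≠ q → (univ.filter fun z => G.Adj p z ∧ G.Adj q z).card ≤ τ)
    {r : W} {x₀ : V} {f : W → V} (hfr : f r = x₀)
    (hinj : Set.InjOn f (T.neighborFinset r : Finset W))
    (hadj : ∀ z, T.Adj r z → G.Adj x₀ (f z)) :
    InvP G T (1 + τ / h) (2 ^ (D + τ)) {r} f := by
  have hNS : NS T {r} = T.neighborFinset r := by
    rw [NS, Finset.singleton_biUnion]
  unfold InvP Phi
  rw [hNS]
  have hq1 : (1 : ℝ) ≤ 1 + τ / h := by
    have : (0 : ℝ) ≤ (τ : ℝ) / h := by positivity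
    linarith
  have h1 : ∀ a ∈ T.neighborFinset r,
      (2 : ℝ) ^ exn G T f ({r} ∪ T.neighborFinset r) a ≤ 2 ^ (D + τ) := by
    intro a ha
    refine pow_le_pow_right₀ one_le_two ?_
    have hra : T.Adj r a := (SimpleGraph.mem_neighborFinset _ _ _).mp ha
    have hne : f a ≠ x₀ := (hadj a hra).ne'
    have h2 : exn G T f ({r} ∪ T.neighborFinset r) a ≤
        ((T.neighborFinset r).filter fun w => G.Adj (f a) (f w)).card := by
      refine Finset.card_le_card ?_
      intro w hw
      rw [Finset.mem_filter, Finset.mem_union, Finset.mem_singleton] at hw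
      rw [Finset.mem_filter]
      rcases hw.1 with rfl | h
      · exact absurd hra.symm hw.2.1
      · exact ⟨h, hw.2.2⟩
    have h3 := card_filter_image_le (C := T.neighborFinset r)
      (Y := univ.filter fun z => G.Adj x₀ z) (g := f) hinj
      (fun z hz => Finset.mem_filter.mpr ⟨Finset.mem_univ _,
        hadj z ((SimpleGraph.mem_neighborFinset _ _ _).mp hz)⟩) (G.Adj (f a))
    have h4 : ((univ.filter fun z => G.Adj x₀ z).filter (G.Adj (f a))).card ≤ τ := by
      refine le_trans (Finset.card_le_card ?_) (hC (f a) x₀ hne)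
      intro z hz
      rw [Finset.mem_filter, Finset.mem_filter] at hz
      exact Finset.mem_filter.mpr ⟨Finset.mem_univ _, hz.2, hz.1.2⟩
    omega
  calc ∑ a ∈ T.neighborFinset r, (2 : ℝ) ^ exn G T f ({r} ∪ T.neighborFinset r) a
      ≤ ∑ _a ∈ T.neighborFinset r, (2 : ℝ) ^ (D + τ) := Finset.sum_le_sum h1
    _ = 1 * ((T.neighborFinset r).card * (2 : ℝ) ^ (D + τ)) := by
        rw [Finset.sum_const, nsmul_eq_mul, one_mul]
    _ ≤ _ := by
        refine mul_le_mul (one_le_pow₀ hq1) (mul_le_mul_of_nonneg_right ?_ (by positivity))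
          (by positivity) (by positivity)
        exact_mod_cast Finset.card_le_card (Finset.subset_union_right)

end

end Pool.Agent.LKS
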