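import Pool.Agent.LKS.Codeg

/-!
# Embedding rules: small trees, trees with a dominating star (helper29)
-/

set_option autoImplicit false
set_option linter.unusedSectionVars false

namespace Pool.Agent.LKS

open Finset
open scoped Classical

section

variable {V W : Type*} [Fintype V] [Fintype W] {G : SimpleGraph V} {T : SimpleGraph W}

theorem st_NA {A B₂ : Finset W} (hA : ∀ a b, T.Adj a b → (a ∈ A ↔ b ∉ A))
    (hB : ∀ x, x ∈ B₂ ↔ x ∉ A ∧ 2 ≤ T.degree x) {r : W} {LH : Finset V} {S : Finset W}
    {f : W → V} (hS : St G T B₂ LH r S f) : ∀ a ∈ NS T S, a ∈ A := by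
  intro a ha
  obtain ⟨y₀, hy₀, had⟩ := mem_NS.mp ha
  by_contra h
  exact ((hB y₀).mp (hS.sub hy₀)).1 ((hA y₀ a had).mpr h)

theorem st_card {A B₂ : Finset W} (hA : ∀ a b, T.Adj a b → (a ∈ A ↔ b ∉ A))
    (hB : ∀ x, x ∈ B₂ ↔ x ∉ A ∧ 2 ≤ T.degree x) {r : W} {LH : Finset V} {S : Finset W}
    {f : W → V} (hS : St G T B₂ LH r S f) {x u : W} (hx : x ∈ B₂) (hxS : x ∉ S)
    (hch : ∀ z, T.Adj x z → z ≠ u → z ∉ S ∪ NS T S) :
    (S ∪ NS T S).card + 1 + ((T.neighborFinset x).erase u).card ≤ B₂.card + A.card := by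
  have hNA := st_NA hA hB hS
  have hxA := ((hB x).mp hx).1
  set C := (T.neighborFinset x).erase u with hC
  have hmemC : ∀ z, z ∈ C ↔ z ≠ u ∧ T.Adj x z := by
    intro z
    rw [hC, Finset.mem_erase, SimpleGraph.mem_neighborFinset]
  have h1 : (insert x S).card ≤ B₂.card := by
    refine Finset.card_le_card ?_
    intro z hz
    rcases Finset.mem_insert.mp hz with rfl | hz
    · exact hx
    · exact hS.sub hz
  have h2 : (NS T S ∪ C).card ≤ A.card := by
    refine Finset.card_le_card ?_
    intro z hz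
    rcases Finset.mem_union.mp hz with hz | hz
    · exact hNA z hz
    · by_contra h
      exact hxA ((hA x z ((hmemC z).mp hz).2).mpr h)
  have h3 : Disjoint (NS T S) C := by
    rw [Finset.disjoint_left]
    intro z hz hz'
    obtain ⟨h4, h5⟩ := (hmemC z).mp hz'
    exact hch z h5 h4 (Finset.mem_union_right _ hz)
  rw [Finset.card_union_of_disjoint h3] at h2
  rw [Finset.card_insert_of_notMem hxS] at h1
  have h4 := Finset.card_union_le S (NS T S)
  omega

/-- A vertex of `Z` outside of `U`. -/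
theorem exists_outside {Z U : Finset V} (h : U.card < Z.card) : ∃ z ∈ Z, z ∉ U := by
  by_contra hcon
  push Not at hcon
  exact absurd (Finset.card_le_card hcon) (by omega)

/-- The rule for small trees. -/
theorem rule_small [Nonempty V] {A B₂ : Finset W} (hA : ∀ a b, T.Adj a b → (a ∈ A ↔ b ∉ A))
    (hB : ∀ x, x ∈ B₂ ↔ x ∉ A ∧ 2 ≤ T.degree x) {r : W} {LH RH : Finset V} {M : ℕ}
    (hM : B₂.card + A.card ≤ M + 1)
    (h3 : ∀ x ∈ RH, M < (LH.filter (G.Adj x)).card)
    (h4 : ∀ v ∈ LH, M < (RH.filter (G.Adj v)).card) :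
    Rule G T B₂ LH r (fun _ _ => True) := by
  intro S f x u hS _ hx hxS hxu hu hch
  have hcard := st_card hA hB hS hx hxS hch
  have hU : ((S ∪ NS T S).image f).card ≤ (S ∪ NS T S).card := Finset.card_image_le
  obtain ⟨x₀, hx₀, hx₀U⟩ := exists_outside (Z := RH.filter (G.Adj (f u)))
    (U := (S ∪ NS T S).image f) (by
      have := h4 (f u) (hS.left u hu)
      omega)
  rw [Finset.mem_filter] at hx₀
  have h5 : ((T.neighborFinset x).erase u).card ≤
      ((LH.filter (G.Adj x₀)) \ (S ∪ NS T S).image f).card := by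
    have h6 := h3 x₀ hx₀.1
    have h7 := Finset.le_card_sdiff ((S ∪ NS T S).image f) (LH.filter (G.Adj x₀))
    omega
  obtain ⟨g, hginj, hgmem⟩ := exists_inj _ _ h5
  refine ⟨x₀, g, hx₀.2, hx₀U, hginj, ?_, fun _ _ _ _ => trivial⟩
  intro z hz
  have := hgmem z hz
  rw [Finset.mem_sdiff, Finset.mem_filter] at this
  exact ⟨this.1.1, this.1.2, this.2⟩

/-- The rule for trees with a dominating star. -/
theorem rule_star [Nonempty V] {A B₂ : Finset W} (hA : ∀ a b, T.Adj a b → (a ∈ A ↔ b ∉ A))
    (hB : ∀ x, x ∈ B₂ ↔ x ∉ A ∧ 2 ≤ T.degree x) {r : W} {LH RH : Finset V} {M τ : ℕ}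
    (hC : ∀ p q : V, p ≠ q → (univ.filter fun z => G.Adj p z ∧ G.Adj q z).card ≤ τ)
    (hM : B₂.card + A.card + τ ≤ M + T.degree r)
    (h3 : ∀ x ∈ RH, M < (LH.filter (G.Adj x)).card)
    (h4 : ∀ v ∈ LH, M < (RH.filter (G.Adj v)).card) :
    Rule G T B₂ LH r (fun _ _ => True) := by
  intro S f x u hS _ hx hxS hxu hu hch
  have hcard := st_card hA hB hS hx hxS hch
  have hrB : r ∈ B₂ := hS.sub hS.mem
  have hrA : r ∉ A := ((hB r).mp hrB).1
  have huA : u ∈ A := st_NA hA hB hS u hu
  set X := S ∪ NS T S with hX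
  have hrX : r ∈ X := Finset.mem_union_left _ hS.mem
  have hNr : T.neighborFinset r ⊆ X := by
    intro z hz
    rw [SimpleGraph.mem_neighborFinset] at hz
    exact Finset.mem_union_right _ (mem_NS.mpr ⟨r, hS.mem, hz⟩)
  have hrN : r ∉ T.neighborFinset r := by
    rw [SimpleGraph.mem_neighborFinset]
    exact T.loopless.irrefl r
  set R := X \ insert r (T.neighborFinset r) with hR
  have hRcard : R.card + (T.degree r + 1) = X.card := by
    have h1 : insert r (T.neighborFinset r) ⊆ X := by
      intro z hz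
      rcases Finset.mem_insert.mp hz with rfl | hz
      · exact hrX
      · exact hNr hz
    have h2 := Finset.card_sdiff_add_card_eq_card h1
    rw [Finset.card_insert_of_notMem hrN, SimpleGraph.card_neighborFinset_eq_degree] at h2
    exact h2
  -- the number of used neighbours
  have hused : ∀ p, p ≠ f r → ((X.image f).filter (G.Adj p)).card ≤ 1 + τ + R.card := by
    intro p hp
    have h1 : (X.image f).filter (G.Adj p) ⊆
        insert (f r) ((univ.filter fun z => G.Adj p z ∧ G.Adj (f r) z) ∪ R.image f) := by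
      intro z hz
      rw [Finset.mem_filter] at hz
      obtain ⟨w, hw, rfl⟩ := Finset.mem_image.mp hz.1
      rw [Finset.mem_insert, Finset.mem_union]
      by_cases hwr : w = r
      · left
        rw [hwr]
      · right
        by_cases hwN : w ∈ T.neighborFinset r
        · left
          rw [Finset.mem_filter]
          refine ⟨Finset.mem_univ _, hz.2, ?_⟩
          rw [SimpleGraph.mem_neighborFinset] at hwN
          exact hS.emb.hom r hrX w hw hwN
        · right
          refine Finset.mem_image_of_mem f ?_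
          rw [hR, Finset.mem_sdiff, Finset.mem_insert, not_or]
          exact ⟨hw, hwr, hwN⟩
    have h2 := Finset.card_le_card h1
    have h3 := Finset.card_insert_le (f r)
      ((univ.filter fun z => G.Adj p z ∧ G.Adj (f r) z) ∪ R.image f)
    have h4 := Finset.card_union_le (univ.filter fun z => G.Adj p z ∧ G.Adj (f r) z) (R.image f)
    have h5 := hC p (f r) hp
    have h6 : (R.image f).card ≤ R.card := Finset.card_image_le
    omega
  have huX : u ∈ X := Finset.mem_union_right _ hu
  have hur : f u ≠ f r := by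
    intro e
    have := hS.emb.inj u huX r hrX e
    exact hrA (this ▸ huA)
  obtain ⟨x₀, hx₀, hx₀U⟩ := exists_outside (Z := RH.filter (G.Adj (f u)))
    (U := (X.image f).filter (G.Adj (f u))) (by
      have h1 := h4 (f u) (hS.left u hu)
      have h2 := hused (f u) hur
      omega)
  rw [Finset.mem_filter] at hx₀
  have hx₀U' : x₀ ∉ X.image f := fun h => hx₀U (Finset.mem_filter.mpr ⟨h, hx₀.2⟩)
  have hx₀r : x₀ ≠ f r := fun e => hx₀U' (e ▸ Finset.mem_image_of_mem f hrX)
  have h5 : ((T.neighborFinset x).erase u).card ≤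
      ((LH.filter (G.Adj x₀)) \ X.image f).card := by
    have h6 := h3 x₀ hx₀.1
    have h7 : (LH.filter (G.Adj x₀)).card ≤ ((LH.filter (G.Adj x₀)) \ X.image f).card +
        ((X.image f).filter (G.Adj x₀)).card := by
      refine le_trans (Finset.card_le_card ?_) (Finset.card_union_le _ _)
      intro z hz
      rw [Finset.mem_union, Finset.mem_sdiff, Finset.mem_filter, Finset.mem_filter]
      rw [Finset.mem_filter] at hz
      by_cases hzU : z ∈ X.image f
      · exact Or.inr ⟨hzU, hz.2⟩
      · exact Or.inl ⟨hz, hzU⟩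
    have h8 := hused x₀ hx₀r
    omega
  obtain ⟨g, hginj, hgmem⟩ := exists_inj _ _ h5
  refine ⟨x₀, g, hx₀.2, hx₀U', hginj, ?_, fun _ _ _ _ => trivial⟩
  intro z hz
  have := hgmem z hz
  rw [Finset.mem_sdiff, Finset.mem_filter] at this
  exact ⟨this.1.1, this.1.2, this.2⟩

end

end Pool.Agent.LKS
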